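import Pool.Agent.PWJ.Chain

/-!
# PWM: chains of subgroups, with a linear cost in the logarithm of the index for normal steps
-/

namespace Pool.Agent.PWI

/-- `LinCost P M c`: the subgroup `M` is joined to `P` by a chain of subgroups of total cost at
most `c`, where a step `N ≤ L` costs `1` if `N` is normal in `L` with cyclic quotient,
`2 (e - 1)` if `N` has finite index `e` in `L`, and `71 k + 9` if `N` is normal in `L` of
finite index at most `2 ^ k`. -/
inductive LinCost {G : Type} [Group G] (P : Subgroup G) : Subgroup G → ℕ → Prop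
  | refl : LinCost P P 0
  | cyc {L N : Subgroup G} {c : ℕ} (hL : LinCost P L c) (hle : N ≤ L)
      (hno : (N.subgroupOf L).Normal) (hcy : ∃ t ∈ L, ∀ x ∈ L, ∃ e : ℤ, x * (t ^ e)⁻¹ ∈ N) :
      LinCost P N (c + 1)
  | idx {L N : Subgroup G} {c e : ℕ} (hL : LinCost P L c) (hle : N ≤ L) (hn : N.relIndex L ≠ 0)
      (he : 2 * (N.relIndex L - 1) ≤ e) : LinCost P N (c + e)
  | nor {L N : Subgroup G} {c e k : ℕ} (hL : LinCost P L c) (hle : N ≤ L)
      (hno : (N.subgroupOf L).Normal) (hn : N.relIndex L ≠ 0)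
      (hk : N.relIndex L ≤ 2 ^ k) (he : 71 * k + 9 ≤ e) : LinCost P N (c + e)

/-- A normal subgroup of index at most `2 ^ k` costs at most `71 k + 9`. -/
theorem LinCost.of_index {G : Type} [Group G] (M : Subgroup G) [hM : M.Normal] (k : ℕ)
    (h0 : M.index ≠ 0) (h : M.index ≤ 2 ^ k) : LinCost ⊤ M (71 * k + 9) := by
  have hno : (M.subgroupOf ⊤).Normal := inferInstance
  have hrel : M.relIndex ⊤ = M.index := Subgroup.relIndex_top_right M
  have e : ∀ a : ℕ, a = 0 + a := fun a => (Nat.zero_add a).symm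
  rw [e (71 * k + 9)]
  exact LinCost.nor (k := k) LinCost.refl le_top hno (by rw [hrel]; exact h0)
    (by rw [hrel]; exact h) le_rfl

end Pool.Agent.PWI
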