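import Pool.Agent.PWM.Word

/-!
# PWM: correlations of the laws of subset products   (helper52)
-/

namespace Pool.Agent.PWI

open Finset

section
variable {Q : Type*} [Group Q] [Fintype Q] [DecidableEq Q] {E : Type*} [Fintype E]

/-- Number of pairs `e, e'` with `x c(e) = c(e')`. -/
noncomputable def corL (c : E → Q) (x : Q) : ℝ := ∑ e, ∑ e', if x * c e = c e' then (1 : ℝ) else 0

/-- Number of pairs `e, e'` with `c(e) x = c(e')`. -/
noncomputable def corR (c : E → Q) (x : Q) : ℝ := ∑ e, ∑ e', if c e * x = c e' then (1 : ℝ) else 0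

/-- Number of `e` with `c(e) = y`. -/
noncomputable def mult (c : E → Q) (y : Q) : ℝ := ∑ e, if c e = y then (1 : ℝ) else 0

theorem sum_comp_mult (c : E → Q) (f : Q → ℝ) : ∑ e, f (c e) = ∑ y, mult c y * f y := by
  unfold mult
  simp_rw [Finset.sum_mul]
  rw [Finset.sum_comm]
  refine Finset.sum_congr rfl fun e _ => ?_
  rw [Finset.sum_eq_single (c e)]
  · simp
  · intro y _ hy
    rw [if_neg (Ne.symm hy), zero_mul]
  · intro h; exact absurd (mem_univ _) h

theorem mult_nonneg (c : E → Q) (y : Q) : 0 ≤ mult c y :=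
  Finset.sum_nonneg fun _ _ => by split_ifs <;> norm_num

theorem sum_mult (c : E → Q) : ∑ y, mult c y = Fintype.card E := by
  have := sum_comp_mult c (fun _ => 1)
  simp only [mul_one] at this
  rw [← this]
  simp

theorem corL_eq (c : E → Q) (x : Q) : corL c x = ∑ y, mult c y * mult c (x * y) := by
  unfold corL
  have h : ∀ e, (∑ e', if x * c e = c e' then (1 : ℝ) else 0) = mult c (x * c e) := by
    intro e
    unfold mult
    exact Finset.sum_congr rfl fun e' _ => by simp only [eq_comm]
  rw [Finset.sum_congr rfl fun e _ => h e]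
  exact sum_comp_mult c fun y => mult c (x * y)

theorem corR_eq (c : E → Q) (x : Q) : corR c x = ∑ y, mult c y * mult c (y * x) := by
  unfold corR
  have h : ∀ e, (∑ e', if c e * x = c e' then (1 : ℝ) else 0) = mult c (c e * x) := by
    intro e
    unfold mult
    exact Finset.sum_congr rfl fun e' _ => by simp only [eq_comm]
  rw [Finset.sum_congr rfl fun e _ => h e]
  exact sum_comp_mult c fun y => mult c (y * x)

theorem corL_one (c : E → Q) : corL c 1 = ∑ y, mult c y ^ 2 := by
  rw [corL_eq]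
  exact Finset.sum_congr rfl fun y _ => by rw [one_mul, pow_two]

theorem corR_one (c : E → Q) : corR c 1 = corL c 1 := by
  rw [corL_one, corR_eq]
  exact Finset.sum_congr rfl fun y _ => by rw [mul_one, pow_two]

theorem corL_le (c : E → Q) (x : Q) : corL c x ≤ corL c 1 := by
  rw [corL_eq, corL_one]
  have h1 : ∑ y, mult c (x * y) ^ 2 = ∑ y, mult c y ^ 2 :=
    Fintype.sum_equiv (Equiv.mulLeft x) _ _ (fun y => rfl)
  have h2 : ∑ y, mult c y * mult c (x * y) ≤ ∑ y, (mult c y ^ 2 + mult c (x * y) ^ 2) / 2 :=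
    Finset.sum_le_sum fun y _ => by nlinarith [sq_nonneg (mult c y - mult c (x * y))]
  rw [← Finset.sum_div, Finset.sum_add_distrib, h1] at h2
  linarith

theorem corR_le (c : E → Q) (x : Q) : corR c x ≤ corL c 1 := by
  rw [corR_eq, corL_one]
  have h1 : ∑ y, mult c (y * x) ^ 2 = ∑ y, mult c y ^ 2 :=
    Fintype.sum_equiv (Equiv.mulRight x) _ _ (fun y => rfl)
  have h2 : ∑ y, mult c y * mult c (y * x) ≤ ∑ y, (mult c y ^ 2 + mult c (y * x) ^ 2) / 2 :=
    Finset.sum_le_sum fun y _ => by nlinarith [sq_nonneg (mult c y - mult c (y * x))]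
  rw [← Finset.sum_div, Finset.sum_add_distrib, h1] at h2
  linarith

theorem corL_nonneg (c : E → Q) (x : Q) : 0 ≤ corL c x := by
  unfold corL
  exact Finset.sum_nonneg fun _ _ => Finset.sum_nonneg fun _ _ => by split_ifs <;> norm_num

theorem corR_nonneg (c : E → Q) (x : Q) : 0 ≤ corR c x := by
  unfold corR
  exact Finset.sum_nonneg fun _ _ => Finset.sum_nonneg fun _ _ => by split_ifs <;> norm_num

theorem corL_one_lower (c : E → Q) :
    (Fintype.card E : ℝ) ^ 2 ≤ Fintype.card Q * corL c 1 := by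
  rw [corL_one, ← sum_mult c]
  exact sq_sum_le_card_mul_sum_sq

theorem corL_one_upper (c : E → Q) : corL c 1 ≤ (Fintype.card E : ℝ) ^ 2 := by
  unfold corL
  calc _ ≤ ∑ _e : E, ∑ _e' : E, (1 : ℝ) :=
        Finset.sum_le_sum fun _ _ => Finset.sum_le_sum fun _ _ => by split_ifs <;> norm_num
    _ = (Fintype.card E : ℝ) ^ 2 := by simp [pow_two]

theorem corL_one_pos [Nonempty E] (c : E → Q) : 0 < corL c 1 := by
  have h := corL_one_lower c
  have h1 : 0 < (Fintype.card E : ℝ) ^ 2 := by
    have : 0 < Fintype.card E := Fintype.card_pos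
    positivity
  have h2 : (0 : ℝ) < Fintype.card Q := by
    have : 0 < Fintype.card Q := Fintype.card_pos
    positivity
  by_contra hc
  push Not at hc
  have := mul_nonpos_of_nonneg_of_nonpos h2.le hc
  linarith

end

section
variable {Q : Type*} [Group Q] [Fintype Q] [DecidableEq Q]

theorem sum_cons {j : ℕ} (F : (Fin (j + 1) → Bool) → ℝ) :
    ∑ e, F e = ∑ e : Fin j → Bool, F (Fin.cons true e : Fin (j + 1) → Bool) +
      ∑ e : Fin j → Bool, F (Fin.cons false e : Fin (j + 1) → Bool) := by
  rw [← (Fin.consEquiv (fun _ : Fin (j + 1) => Bool)).sum_comp, Fintype.sum_prod_type,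
    Fintype.sum_bool]
  rfl

theorem sum_snoc {j : ℕ} (F : (Fin (j + 1) → Bool) → ℝ) :
    ∑ e, F e = ∑ e : Fin j → Bool, F (Fin.snoc e true : Fin (j + 1) → Bool) +
      ∑ e : Fin j → Bool, F (Fin.snoc e false : Fin (j + 1) → Bool) := by
  rw [← (Fin.snocEquiv (fun _ : Fin (j + 1) => Bool)).sum_comp, Fintype.sum_prod_type,
    Fintype.sum_bool]
  rfl

/-- Number of coincidences of subset products. -/
noncomputable def coin (x : ℕ → Q) (q j : ℕ) : ℝ := corL (cube x q j) 1

theorem coin_left (x : ℕ → Q) (q j : ℕ) :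
    coin x q (j + 1) = 2 * coin x (q + 1) j + 2 * corL (cube x (q + 1) j) (x q) := by
  unfold coin corL
  rw [sum_cons]
  simp_rw [sum_cons, cube_cons]
  simp only [if_true, Bool.false_eq_true, if_false, one_mul, mul_right_inj,
    Finset.sum_add_distrib]
  have h : ∑ e : Fin j → Bool, ∑ e' : Fin j → Bool,
      (if cube x (q + 1) j e = x q * cube x (q + 1) j e' then (1 : ℝ) else 0) =
      ∑ e : Fin j → Bool, ∑ e' : Fin j → Bool,
      (if x q * cube x (q + 1) j e = cube x (q + 1) j e' then (1 : ℝ) else 0) := by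
    rw [Finset.sum_comm]
    exact Finset.sum_congr rfl fun _ _ => Finset.sum_congr rfl fun _ _ => by simp only [eq_comm]
  rw [h]
  ring

theorem coin_right (x : ℕ → Q) (q j : ℕ) :
    coin x q (j + 1) = 2 * coin x q j + 2 * corR (cube x q j) (x (q + j)) := by
  unfold coin corL corR
  rw [sum_snoc]
  simp_rw [sum_snoc, cube_snoc]
  simp only [if_true, Bool.false_eq_true, if_false, one_mul, mul_one, mul_left_inj,
    Finset.sum_add_distrib]
  have h : ∑ e : Fin j → Bool, ∑ e' : Fin j → Bool,
      (if cube x q j e = cube x q j e' * x (q + j) then (1 : ℝ) else 0) =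
      ∑ e : Fin j → Bool, ∑ e' : Fin j → Bool,
      (if cube x q j e * x (q + j) = cube x q j e' then (1 : ℝ) else 0) := by
    rw [Finset.sum_comm]
    exact Finset.sum_congr rfl fun _ _ => Finset.sum_congr rfl fun _ _ => by simp only [eq_comm]
  rw [h]
  ring

/-- The Renyi entropy of the law of a random subset product. -/
noncomputable def ent (x : ℕ → Q) (q j : ℕ) : ℝ := -Real.log (coin x q j / 4 ^ j)

theorem coin_pos (x : ℕ → Q) (q j : ℕ) : 0 < coin x q j := corL_one_pos _

private theorem card_four (j : ℕ) : (Fintype.card (Fin j → Bool) : ℝ) ^ 2 = 4 ^ j := by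
  rw [Fintype.card_fun, Fintype.card_bool, Fintype.card_fin]
  push_cast
  rw [← pow_mul, mul_comm, pow_mul]
  norm_num

theorem ent_nonneg (x : ℕ → Q) (q j : ℕ) : 0 ≤ ent x q j := by
  unfold ent
  have h1 : coin x q j / 4 ^ j ≤ 1 := by
    rw [div_le_one (by positivity), ← card_four]
    exact corL_one_upper _
  have h2 : 0 < coin x q j / 4 ^ j := div_pos (coin_pos x q j) (by positivity)
  have := Real.log_nonpos h2.le h1
  linarith

theorem ent_le (x : ℕ → Q) (q j : ℕ) : ent x q j ≤ Real.log (Fintype.card Q) := by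
  unfold ent
  have hQ : (0 : ℝ) < Fintype.card Q := by
    have : 0 < Fintype.card Q := Fintype.card_pos
    positivity
  have h1 : 1 / (Fintype.card Q : ℝ) ≤ coin x q j / 4 ^ j := by
    rw [div_le_div_iff₀ hQ (by positivity), one_mul, ← card_four, mul_comm]
    exact corL_one_lower _
  have h2 := Real.log_le_log (by positivity) h1
  rw [Real.log_div one_ne_zero hQ.ne', Real.log_one] at h2
  linarith

private theorem ent_step (K K' R : ℝ) (j : ℕ) (hK : 0 < K) (hR : 0 ≤ R) (h : K' = 2 * K + 2 * R) :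
    (1 - R / K) / 2 ≤ -Real.log (K' / 4 ^ (j + 1)) - -Real.log (K / 4 ^ j) := by
  have e : K' / 4 ^ (j + 1) = K / 4 ^ j * ((1 + R / K) / 2) := by
    rw [h, pow_succ]
    field_simp
    ring
  have h0 : 0 ≤ R / K := div_nonneg hR hK.le
  have h1 : 0 < (1 + R / K) / 2 := by linarith
  rw [e, Real.log_mul (div_pos hK (by positivity)).ne' h1.ne']
  have h2 := Real.log_le_sub_one_of_pos h1
  linarith

theorem ent_left (x : ℕ → Q) (q j : ℕ) :
    (1 - corL (cube x (q + 1) j) (x q) / corL (cube x (q + 1) j) 1) / 2 ≤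
      ent x q (j + 1) - ent x (q + 1) j :=
  ent_step _ _ _ j (coin_pos x (q + 1) j) (corL_nonneg _ _) (coin_left x q j)

theorem ent_right (x : ℕ → Q) (q j : ℕ) :
    (1 - corR (cube x q j) (x (q + j)) / corR (cube x q j) 1) / 2 ≤
      ent x q (j + 1) - ent x q j := by
  rw [corR_one]
  exact ent_step _ _ _ j (coin_pos x q j) (corR_nonneg _ _) (coin_right x q j)

end

end Pool.Agent.PWI
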