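import Mathlib

/-!
# Two measures on a finite group which nearly fix each other

`u`, `v` are probability measures on a finite group, most translates of `v` by elements of `u` are near to `v` and
most right translates of `u` by elements of `v` are near to `u` (in `L²`). Then `∑ u(g⁻¹) v(g)` is not small.
-/

set_option autoImplicit false

namespace Pool.Agent.PWI

variable {Q : Type*} [Group Q] [Fintype Q]

private theorem cs_le {ι : Type*} [Fintype ι] (f h : ι → ℝ) {x y : ℝ} (hx : 0 ≤ x) (hy : 0 ≤ y)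
    (hf : ∑ i, f i ^ 2 ≤ x ^ 2) (hh : ∑ i, h i ^ 2 ≤ y ^ 2) : |∑ i, f i * h i| ≤ x * y := by
  have h1 := Finset.sum_mul_sq_le_sq_mul_sq Finset.univ f h
  have h2 : (∑ i, f i * h i) ^ 2 ≤ (x * y) ^ 2 := by
    rw [mul_pow]
    exact h1.trans (mul_le_mul hf hh (Finset.sum_nonneg fun i _ => sq_nonneg _) (sq_nonneg _))
  exact abs_le_of_sq_le_sq h2 (mul_nonneg hx hy)

private theorem jensen {ι : Type*} [Fintype ι] (u x : ι → ℝ) (hu : ∀ i, 0 ≤ u i)
    (su : ∑ i, u i = 1) : (∑ i, u i * x i) ^ 2 ≤ ∑ i, u i * x i ^ 2 := by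
  have h1 : 0 ≤ ∑ i, u i * (x i - ∑ j, u j * x j) ^ 2 :=
    Finset.sum_nonneg fun i _ => mul_nonneg (hu i) (sq_nonneg _)
  have h2 : ∑ i, u i * (x i - ∑ j, u j * x j) ^ 2 =
      ∑ i, u i * x i ^ 2 - (∑ j, u j * x j) ^ 2 := by
    have : ∀ i, u i * (x i - ∑ j, u j * x j) ^ 2 =
        u i * x i ^ 2 - 2 * (∑ j, u j * x j) * (u i * x i) + (∑ j, u j * x j) ^ 2 * u i := by
      intro i; ring
    simp_rw [this]
    rw [Finset.sum_add_distrib, Finset.sum_sub_distrib, ← Finset.mul_sum, ← Finset.mul_sum, su]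
    ring
  linarith

/-- the correlation of `v` with its left translate -/
noncomputable def cl (v : Q → ℝ) (g : Q) : ℝ := ∑ y, v y * v (g⁻¹ * y)

/-- the correlation of `u` with its right translate -/
noncomputable def cr (u : Q → ℝ) (g : Q) : ℝ := ∑ y, u y * u (y * g⁻¹)

theorem sum_left (f : Q → ℝ) (g : Q) : ∑ y, f (g * y) = ∑ y, f y :=
  Fintype.sum_equiv (Equiv.mulLeft g) _ _ fun _ => rfl

theorem sum_right (f : Q → ℝ) (g : Q) : ∑ y, f (y * g) = ∑ y, f y :=
  Fintype.sum_equiv (Equiv.mulRight g) _ _ fun _ => rfl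

theorem sum_inv' (f : Q → ℝ) : ∑ y, f y⁻¹ = ∑ y, f y :=
  Fintype.sum_equiv (Equiv.inv Q) _ _ fun _ => rfl

theorem cl_le (v : Q → ℝ) (g : Q) : cl v g ≤ ∑ y, v y ^ 2 := by
  have h1 : ∑ y, v (g⁻¹ * y) ^ 2 = ∑ y, v y ^ 2 := sum_left (fun y => v y ^ 2) g⁻¹
  have h2 : cl v g ≤ ∑ y, (v y ^ 2 + v (g⁻¹ * y) ^ 2) / 2 := by
    refine Finset.sum_le_sum fun y _ => ?_
    nlinarith [sq_nonneg (v y - v (g⁻¹ * y))]
  rw [← Finset.sum_div, Finset.sum_add_distrib, h1] at h2
  linarith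

theorem cr_le (u : Q → ℝ) (g : Q) : cr u g ≤ ∑ y, u y ^ 2 := by
  have h1 : ∑ y, u (y * g⁻¹) ^ 2 = ∑ y, u y ^ 2 := sum_right (fun y => u y ^ 2) g⁻¹
  have h2 : cr u g ≤ ∑ y, (u y ^ 2 + u (y * g⁻¹) ^ 2) / 2 := by
    refine Finset.sum_le_sum fun y _ => ?_
    nlinarith [sq_nonneg (u y - u (y * g⁻¹))]
  rw [← Finset.sum_div, Finset.sum_add_distrib, h1] at h2
  linarith

private theorem cl_sum (v : Q → ℝ) (sv : ∑ g, v g = 1) : ∑ g, cl v g = 1 := by
  unfold cl
  rw [Finset.sum_comm]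
  have : ∀ y, ∑ g, v y * v (g⁻¹ * y) = v y := by
    intro y
    rw [← Finset.mul_sum]
    have h1 : ∑ g, v (g⁻¹ * y) = 1 := by
      rw [sum_inv' (fun g => v (g * y)), sum_right, sv]
    rw [h1, mul_one]
  simp_rw [this]
  exact sv

private theorem cr_sum (v : Q → ℝ) (sv : ∑ g, v g = 1) : ∑ g, cr v g = 1 := by
  unfold cr
  rw [Finset.sum_comm]
  have : ∀ y, ∑ g, v y * v (y * g⁻¹) = v y := by
    intro y
    rw [← Finset.mul_sum]
    have h1 : ∑ g, v (y * g⁻¹) = 1 := by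
      rw [sum_inv' (fun g => v (y * g)), sum_left, sv]
    rw [h1, mul_one]
  simp_rw [this]
  exact sv

private theorem cl_inv (v : Q → ℝ) (g : Q) : cl v g⁻¹ = cl v g := by
  unfold cl
  rw [inv_inv, ← sum_left (fun y => v y * v (g * y)) g⁻¹]
  refine Finset.sum_congr rfl fun y _ => ?_
  rw [mul_inv_cancel_left, mul_comm]

private theorem sum_sq_pos (u : Q → ℝ) (su : ∑ g, u g = 1) : 0 < ∑ g, u g ^ 2 := by
  rcases (Finset.sum_nonneg fun g (_ : g ∈ Finset.univ) => sq_nonneg (u g)).lt_or_eq with h | h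
  · exact h
  · exfalso
    have h1 := (Finset.sum_eq_zero_iff_of_nonneg fun g _ => sq_nonneg (u g)).1 h.symm
    have h2 : ∑ g, u g = 0 := Finset.sum_eq_zero fun g hg => by
      have := h1 g hg
      exact pow_eq_zero_iff (two_ne_zero) |>.1 this
    rw [h2] at su
    exact zero_ne_one su

theorem l2core (u v : Q → ℝ) (hu : ∀ g, 0 ≤ u g) (hv : ∀ g, 0 ≤ v g) (su : ∑ g, u g = 1)
    (sv : ∑ g, v g = 1)
    (hAB : ∑ g, u g * (1 - cl v g / ∑ y, v y ^ 2) + ∑ g, v g * (1 - cr u g / ∑ y, u y ^ 2) ≤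
      2 / 25) :
    33 / 1000 * (Real.sqrt (∑ y, u y ^ 2) * Real.sqrt (∑ y, v y ^ 2)) ≤ ∑ g, u g⁻¹ * v g := by
  obtain ⟨A, hA⟩ : ∃ A, A = ∑ g, u g * (1 - cl v g / ∑ y, v y ^ 2) := ⟨_, rfl⟩
  obtain ⟨B, hB⟩ : ∃ B, B = ∑ g, v g * (1 - cr u g / ∑ y, u y ^ 2) := ⟨_, rfl⟩
  rw [← hA, ← hB] at hAB
  have ha2 := sum_sq_pos u su
  have hb2 := sum_sq_pos v sv
  obtain ⟨a, haD⟩ : ∃ a, a = Real.sqrt (∑ y, u y ^ 2) := ⟨_, rfl⟩
  obtain ⟨b, hbD⟩ : ∃ b, b = Real.sqrt (∑ y, v y ^ 2) := ⟨_, rfl⟩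
  have ha : 0 < a := by rw [haD]; exact Real.sqrt_pos.2 ha2
  have hb : 0 < b := by rw [hbD]; exact Real.sqrt_pos.2 hb2
  have hau : ∑ y, u y ^ 2 = a ^ 2 := by rw [haD, Real.sq_sqrt ha2.le]
  have hbv : ∑ y, v y ^ 2 = b ^ 2 := by rw [hbD, Real.sq_sqrt hb2.le]
  rw [← haD, ← hbD]
  rw [hbv] at hA
  rw [hau] at hB
  have hA0 : 0 ≤ A := by
    rw [hA]
    refine Finset.sum_nonneg fun g _ => mul_nonneg (hu g) ?_
    have := cl_le v g
    rw [hbv] at this
    rw [sub_nonneg, div_le_one (by positivity)]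
    exact this
  have hB0 : 0 ≤ B := by
    rw [hB]
    refine Finset.sum_nonneg fun g _ => mul_nonneg (hv g) ?_
    have := cr_le u g
    rw [hau] at this
    rw [sub_nonneg, div_le_one (by positivity)]
    exact this
  -- the first inner product
  have hcl0 : ∀ g, 0 ≤ cl v g := fun g => Finset.sum_nonneg fun y _ => mul_nonneg (hv _) (hv _)
  have hcr0 : ∀ g, 0 ≤ cr u g := fun g => Finset.sum_nonneg fun y _ => mul_nonneg (hu _) (hu _)
  have e1 : ∑ g, u g * (cl v g / b ^ 2) = 1 - A := by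
    rw [hA]
    have : ∀ g, u g * (1 - cl v g / b ^ 2) = u g - u g * (cl v g / b ^ 2) := fun g => by ring
    simp_rw [this]
    rw [Finset.sum_sub_distrib, su]
    ring
  have e2 : ∑ g, v g * (cr u g / a ^ 2) = 1 - B := by
    rw [hB]
    have : ∀ g, v g * (1 - cr u g / a ^ 2) = v g - v g * (cr u g / a ^ 2) := fun g => by ring
    simp_rw [this]
    rw [Finset.sum_sub_distrib, sv]
    ring
  have r1 : ∑ g, (cl v g / b ^ 2) ^ 2 ≤ (1 / b) ^ 2 := by
    have h1 : ∀ g, (cl v g / b ^ 2) ^ 2 ≤ cl v g / b ^ 2 := by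
      intro g
      have h2 : 0 ≤ cl v g / b ^ 2 := div_nonneg (hcl0 g) (by positivity)
      have h3 : cl v g / b ^ 2 ≤ 1 := by
        have := cl_le v g
        rw [hbv] at this
        rw [div_le_one (by positivity)]
        exact this
      nlinarith
    refine (Finset.sum_le_sum fun g _ => h1 g).trans ?_
    rw [← Finset.sum_div, cl_sum v sv, one_div, one_div, inv_pow]
  have r2 : ∑ g, (cr u g / a ^ 2) ^ 2 ≤ (1 / a) ^ 2 := by
    have h1 : ∀ g, (cr u g / a ^ 2) ^ 2 ≤ cr u g / a ^ 2 := by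
      intro g
      have h2 : 0 ≤ cr u g / a ^ 2 := div_nonneg (hcr0 g) (by positivity)
      have h3 : cr u g / a ^ 2 ≤ 1 := by
        have := cr_le u g
        rw [hau] at this
        rw [div_le_one (by positivity)]
        exact this
      nlinarith
    refine (Finset.sum_le_sum fun g _ => h1 g).trans ?_
    rw [← Finset.sum_div, cr_sum u su, one_div, one_div, inv_pow]
  have c1 : (1 - A) * b ≤ a := by
    have h1 := (abs_le.1 (cs_le u (fun g => cl v g / b ^ 2) ha.le (by positivity : 0 ≤ 1 / b)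
      hau.le r1)).2
    rw [e1] at h1
    have h2 := mul_le_mul_of_nonneg_right h1 hb.le
    have h3 : a * (1 / b) * b = a := by field_simp
    linarith
  have c2 : (1 - B) * a ≤ b := by
    have h1 := (abs_le.1 (cs_le v (fun g => cr u g / a ^ 2) hb.le (by positivity : 0 ≤ 1 / a)
      hbv.le r2)).2
    rw [e2] at h1
    have h2 := mul_le_mul_of_nonneg_right h1 ha.le
    have h3 : b * (1 / a) * a = b := by field_simp
    linarith
  -- `u / a` is near to a symmetric function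
  obtain ⟨w, hw⟩ : ∃ w : Q → ℝ, ∀ g, w g = u g / a - b * (cl v g / b ^ 2) :=
    ⟨fun g => u g / a - b * (cl v g / b ^ 2), fun _ => rfl⟩
  have hw2 : ∑ g, w g ^ 2 ≤ (2 / 5) ^ 2 := by
    have h1 : ∑ g, w g ^ 2 = (∑ g, u g ^ 2) / a ^ 2 -
        2 * (b / a) * (∑ g, u g * (cl v g / b ^ 2)) + b ^ 2 * ∑ g, (cl v g / b ^ 2) ^ 2 := by
      rw [Finset.sum_div, Finset.mul_sum, Finset.mul_sum, ← Finset.sum_sub_distrib,
        ← Finset.sum_add_distrib]
      refine Finset.sum_congr rfl fun g _ => ?_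
      rw [hw]
      field_simp
      ring
    rw [h1, hau, e1, div_self (by positivity)]
    have h2 : b ^ 2 * ∑ g, (cl v g / b ^ 2) ^ 2 ≤ 1 := by
      have := mul_le_mul_of_nonneg_left r1 (by positivity : 0 ≤ b ^ 2)
      have h3 : b ^ 2 * (1 / b) ^ 2 = 1 := by field_simp
      linarith
    have h3 : (1 - B) ≤ b / a := by
      rw [le_div_iff₀ ha]
      exact c2
    have h4 : (1 - B) * (1 - A) ≤ b / a * (1 - A) :=
      mul_le_mul_of_nonneg_right h3 (by linarith)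
    nlinarith
  have hw2' : ∑ g, w g⁻¹ ^ 2 ≤ (2 / 5) ^ 2 := by
    rw [sum_inv' (fun g => w g ^ 2)]
    exact hw2
  have k1 := cs_le w v (by norm_num) hb.le hw2 hbv.le
  have k2 := cs_le (fun g => w g⁻¹) v (by norm_num) hb.le hw2' hbv.le
  have key : ∑ g, u g⁻¹ * v g = ∑ g, u g * v g + a * ∑ g, w g⁻¹ * v g - a * ∑ g, w g * v g := by
    rw [Finset.mul_sum, Finset.mul_sum, ← Finset.sum_add_distrib, ← Finset.sum_sub_distrib]
    refine Finset.sum_congr rfl fun g _ => ?_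
    rw [hw, hw, cl_inv]
    field_simp
    ring
  -- the inner product of `u` and `v`
  have z1 : ∑ y, (∑ g, u g * v (g⁻¹ * y) - v y) ^ 2 ≤ 2 * b ^ 2 * A := by
    have h1 : ∀ y, (∑ g, u g * v (g⁻¹ * y) - v y) ^ 2 ≤
        ∑ g, u g * (v (g⁻¹ * y) - v y) ^ 2 := by
      intro y
      have h2 := jensen u (fun g => v (g⁻¹ * y) - v y) hu su
      have h3 : ∑ g, u g * (v (g⁻¹ * y) - v y) = ∑ g, u g * v (g⁻¹ * y) - v y := by
        simp_rw [mul_sub]
        rw [Finset.sum_sub_distrib, ← Finset.sum_mul, su, one_mul]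
      rw [← h3]
      exact h2
    refine (Finset.sum_le_sum fun y _ => h1 y).trans ?_
    rw [Finset.sum_comm, hA, Finset.mul_sum]
    refine Finset.sum_le_sum fun g _ => ?_
    rw [← Finset.mul_sum]
    have h4 : ∑ y, (v (g⁻¹ * y) - v y) ^ 2 = 2 * b ^ 2 - 2 * cl v g := by
      have h5 : ∀ y, (v (g⁻¹ * y) - v y) ^ 2 =
          v (g⁻¹ * y) ^ 2 + v y ^ 2 - 2 * (v y * v (g⁻¹ * y)) := fun y => by ring
      simp_rw [h5]
      rw [Finset.sum_sub_distrib, Finset.sum_add_distrib, ← Finset.mul_sum,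
        sum_left (fun y => v y ^ 2) g⁻¹, hbv]
      unfold cl
      ring
    rw [h4]
    have h6 : 2 * b ^ 2 * (u g * (1 - cl v g / b ^ 2)) = u g * (2 * b ^ 2 - 2 * cl v g) := by
      field_simp
    rw [h6]
  have z2 : ∑ y, (∑ g, u g * v (g⁻¹ * y) - u y) ^ 2 ≤ 2 * a ^ 2 * B := by
    have h0 : ∀ y, ∑ g, u g * v (g⁻¹ * y) = ∑ h, v h * u (y * h⁻¹) := by
      intro y
      refine Fintype.sum_equiv ((Equiv.inv Q).trans (Equiv.mulRight y)) _ _ fun g => ?_
      show u g * v (g⁻¹ * y) = v (g⁻¹ * y) * u (y * (g⁻¹ * y)⁻¹)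
      rw [mul_comm, mul_inv_rev, inv_inv, mul_inv_cancel_left]
    have h1 : ∀ y, (∑ g, u g * v (g⁻¹ * y) - u y) ^ 2 ≤
        ∑ g, v g * (u (y * g⁻¹) - u y) ^ 2 := by
      intro y
      have h2 := jensen v (fun g => u (y * g⁻¹) - u y) hv sv
      have h3 : ∑ g, v g * (u (y * g⁻¹) - u y) = ∑ g, u g * v (g⁻¹ * y) - u y := by
        rw [h0]
        simp_rw [mul_sub]
        rw [Finset.sum_sub_distrib, ← Finset.sum_mul, sv, one_mul]
      rw [← h3]
      exact h2
    refine (Finset.sum_le_sum fun y _ => h1 y).trans ?_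
    rw [Finset.sum_comm, hB, Finset.mul_sum]
    refine Finset.sum_le_sum fun g _ => ?_
    rw [← Finset.mul_sum]
    have h4 : ∑ y, (u (y * g⁻¹) - u y) ^ 2 = 2 * a ^ 2 - 2 * cr u g := by
      have h5 : ∀ y, (u (y * g⁻¹) - u y) ^ 2 =
          u (y * g⁻¹) ^ 2 + u y ^ 2 - 2 * (u y * u (y * g⁻¹)) := fun y => by ring
      simp_rw [h5]
      rw [Finset.sum_sub_distrib, Finset.sum_add_distrib, ← Finset.mul_sum,
        sum_right (fun y => u y ^ 2) g⁻¹, hau]
      unfold cr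
      ring
    rw [h4]
    have h6 : 2 * a ^ 2 * (v g * (1 - cr u g / a ^ 2)) = v g * (2 * a ^ 2 - 2 * cr u g) := by
      field_simp
    rw [h6]
  have z4 : |∑ y, (∑ g, u g * v (g⁻¹ * y) - v y) * (∑ g, u g * v (g⁻¹ * y) - u y)| ≤
      a * b * (A + B) := by
    have s1 := Real.sqrt_nonneg (2 * A)
    have s2 := Real.sqrt_nonneg (2 * B)
    have q1 := Real.sq_sqrt (by linarith : 0 ≤ 2 * A)
    have q2 := Real.sq_sqrt (by linarith : 0 ≤ 2 * B)
    have h1 := cs_le (fun y => ∑ g, u g * v (g⁻¹ * y) - v y)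
      (fun y => ∑ g, u g * v (g⁻¹ * y) - u y) (mul_nonneg hb.le s1) (mul_nonneg ha.le s2)
      (by rw [mul_pow, q1]; linarith) (by rw [mul_pow, q2]; linarith)
    refine h1.trans ?_
    have h2 : Real.sqrt (2 * A) * Real.sqrt (2 * B) ≤ A + B := by
      nlinarith [sq_nonneg (Real.sqrt (2 * A) - Real.sqrt (2 * B))]
    have h3 := mul_le_mul_of_nonneg_left h2 (mul_pos ha hb).le
    calc b * Real.sqrt (2 * A) * (a * Real.sqrt (2 * B)) =
        a * b * (Real.sqrt (2 * A) * Real.sqrt (2 * B)) := by ring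
      _ ≤ _ := h3
  have z3 : a ^ 2 + b ^ 2 - 2 * ∑ g, u g * v g ≤
      2 * b ^ 2 * A + 2 * a ^ 2 * B + 2 * (a * b * (A + B)) := by
    have h1 : ∑ y, (u y - v y) ^ 2 = a ^ 2 + b ^ 2 - 2 * ∑ g, u g * v g := by
      have h5 : ∀ y, (u y - v y) ^ 2 = u y ^ 2 + v y ^ 2 - 2 * (u y * v y) := fun y => by ring
      simp_rw [h5]
      rw [Finset.sum_sub_distrib, Finset.sum_add_distrib, ← Finset.mul_sum, hau, hbv]
    have h2 : ∑ y, (u y - v y) ^ 2 = ∑ y, (∑ g, u g * v (g⁻¹ * y) - v y) ^ 2 +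
        ∑ y, (∑ g, u g * v (g⁻¹ * y) - u y) ^ 2 -
        2 * ∑ y, (∑ g, u g * v (g⁻¹ * y) - v y) * (∑ g, u g * v (g⁻¹ * y) - u y) := by
      rw [Finset.mul_sum, ← Finset.sum_add_distrib, ← Finset.sum_sub_distrib]
      refine Finset.sum_congr rfl fun y _ => ?_
      ring
    have h3 := (abs_le.1 z4).1
    linarith
  -- numbers
  have n1 : (23 / 25) * b ≤ a := by nlinarith
  have n2 : (23 / 25) * a ≤ b := by nlinarith
  have m1 : (23 / 25) * (b ^ 2 * A) ≤ a * b * A := by nlinarith [mul_nonneg hb.le hA0]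
  have m2 : (23 / 25) * (a ^ 2 * B) ≤ a * b * B := by nlinarith [mul_nonneg ha.le hB0]
  have m3 : a * b * (A + B) ≤ a * b * (2 / 25) :=
    mul_le_mul_of_nonneg_left hAB (by positivity)
  have k1' := (abs_le.1 k1).2
  have k2' := (abs_le.1 k2).1
  have p1 := mul_le_mul_of_nonneg_left k1' ha.le
  have p2 := mul_le_mul_of_nonneg_left k2' ha.le
  have hab : 0 < a * b := mul_pos ha hb
  rw [key]
  nlinarith [sq_nonneg (a - b)]

section

variable {G : Type*} [Group G] [DecidableEq G] {E : Type*} [Fintype E]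

/-- number of pairs with `g c(e) = c(e')` -/
def corrL (c : E → G) (g : G) : ℕ := (Finset.univ.filter fun p : E × E => g * c p.1 = c p.2).card

/-- number of pairs with `c(e) g = c(e')` -/
def corrR (c : E → G) (g : G) : ℕ := (Finset.univ.filter fun p : E × E => c p.1 * g = c p.2).card

private noncomputable def cn (c : E → G) (g : G) : ℝ :=
  ∑ e, if c e = g then (1 : ℝ) else 0

private theorem cn_nonneg (c : E → G) (g : G) : 0 ≤ cn c g :=
  Finset.sum_nonneg fun e _ => by split_ifs <;> norm_num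

private theorem cn_sum [Fintype G] (c : E → G) (F : G → ℝ) :
    ∑ g, cn c g * F g = ∑ e, F (c e) := by
  unfold cn
  simp_rw [Finset.sum_mul]
  rw [Finset.sum_comm]
  refine Finset.sum_congr rfl fun e _ => ?_
  rw [Finset.sum_eq_single (c e)]
  · rw [if_pos rfl, one_mul]
  · intro g _ hg
    rw [if_neg (Ne.symm hg), zero_mul]
  · intro h
    exact absurd (Finset.mem_univ _) h

private theorem card_eq_sum (p : E × E → Prop) [DecidablePred p] :
    ((Finset.univ.filter p).card : ℝ) = ∑ e, ∑ e', if p (e, e') then (1 : ℝ) else 0 := by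
  rw [Finset.card_filter]
  push_cast
  rw [Fintype.sum_prod_type]

/-- Two families of elements of a group which nearly fix each other contain inverse elements. -/
theorem meet [Finite G] (hE : 32 ≤ Fintype.card E) (c1 c2 : E → G) (A B : ℝ)
    (hA : ∑ e, (1 - (corrL c2 (c1 e) : ℝ) / corrL c2 1) ≤ A * Fintype.card E)
    (hB : ∑ e, (1 - (corrR c1 (c2 e) : ℝ) / corrR c1 1) ≤ B * Fintype.card E)
    (hAB : A + B ≤ 2 / 25) :
    1 < (Finset.univ.filter fun p : E × E => c1 p.1 * c2 p.2 = 1).card := by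
  classical
  have := Fintype.ofFinite G
  obtain ⟨N, hN⟩ : ∃ N : ℝ, N = Fintype.card E := ⟨_, rfl⟩
  have hN32 : 32 ≤ N := by rw [hN]; exact_mod_cast hE
  have hN0 : 0 < N := by linarith
  rw [← hN] at hA hB
  have sN : ∀ c : E → G, ∑ g, cn c g = N := by
    intro c
    have := cn_sum c (fun _ => 1)
    simp only [mul_one] at this
    rw [this, Finset.sum_const, Finset.card_univ, nsmul_eq_mul, mul_one, hN]
  obtain ⟨u, hu⟩ : ∃ u : G → ℝ, ∀ g, u g = cn c1 g / N := ⟨_, fun _ => rfl⟩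
  obtain ⟨v, hv⟩ : ∃ v : G → ℝ, ∀ g, v g = cn c2 g / N := ⟨_, fun _ => rfl⟩
  have su : ∑ g, u g = 1 := by
    simp_rw [hu]
    rw [← Finset.sum_div, sN, div_self hN0.ne']
  have sv : ∑ g, v g = 1 := by
    simp_rw [hv]
    rw [← Finset.sum_div, sN, div_self hN0.ne']
  have lcl : ∀ g, cl v g = corrL c2 g / N ^ 2 := by
    intro g
    unfold cl corrL
    rw [card_eq_sum]
    simp_rw [hv]
    have h1 : ∀ y, cn c2 y / N * (cn c2 (g⁻¹ * y) / N) = cn c2 y * (cn c2 (g⁻¹ * y) / N ^ 2) := by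
      intro y; field_simp
    simp_rw [h1]
    rw [cn_sum c2 (fun y => cn c2 (g⁻¹ * y) / N ^ 2), ← Finset.sum_div]
    congr 1
    unfold cn
    rw [Finset.sum_comm]
    refine Finset.sum_congr rfl fun e _ => Finset.sum_congr rfl fun e' _ => ?_
    have : (c2 e = g⁻¹ * c2 e') ↔ g * c2 e = c2 e' := by
      rw [eq_inv_mul_iff_mul_eq]
    simp only [this]
  have lcr : ∀ g, cr u g = corrR c1 g / N ^ 2 := by
    intro g
    unfold cr corrR
    rw [card_eq_sum]
    simp_rw [hu]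
    have h1 : ∀ y, cn c1 y / N * (cn c1 (y * g⁻¹) / N) = cn c1 y * (cn c1 (y * g⁻¹) / N ^ 2) := by
      intro y; field_simp
    simp_rw [h1]
    rw [cn_sum c1 (fun y => cn c1 (y * g⁻¹) / N ^ 2), ← Finset.sum_div]
    congr 1
    unfold cn
    rw [Finset.sum_comm]
    refine Finset.sum_congr rfl fun e _ => Finset.sum_congr rfl fun e' _ => ?_
    have : (c1 e = c1 e' * g⁻¹) ↔ c1 e * g = c1 e' := by
      rw [eq_mul_inv_iff_mul_eq]
    simp only [this]
  have q2 : ∑ y, v y ^ 2 = corrL c2 1 / N ^ 2 := by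
    rw [← lcl]
    unfold cl
    refine Finset.sum_congr rfl fun y _ => ?_
    rw [inv_one, one_mul, pow_two]
  have q1 : ∑ y, u y ^ 2 = corrR c1 1 / N ^ 2 := by
    rw [← lcr]
    unfold cr
    refine Finset.sum_congr rfl fun y _ => ?_
    rw [inv_one, mul_one, pow_two]
  have d2 : (N : ℝ) ≤ corrL c2 1 := by
    rw [hN]
    have : Fintype.card E ≤ corrL c2 1 := by
      unfold corrL
      rw [← Finset.card_univ, ← Finset.card_image_of_injective (Finset.univ : Finset E)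
        (f := fun e => (e, e)) (fun a b h => (Prod.mk.inj h).1)]
      refine Finset.card_le_card fun p hp => ?_
      obtain ⟨e, -, rfl⟩ := Finset.mem_image.1 hp
      rw [Finset.mem_filter]
      exact ⟨Finset.mem_univ _, one_mul _⟩
    exact_mod_cast this
  have d1 : (N : ℝ) ≤ corrR c1 1 := by
    rw [hN]
    have : Fintype.card E ≤ corrR c1 1 := by
      unfold corrR
      rw [← Finset.card_univ, ← Finset.card_image_of_injective (Finset.univ : Finset E)
        (f := fun e => (e, e)) (fun a b h => (Prod.mk.inj h).1)]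
      refine Finset.card_le_card fun p hp => ?_
      obtain ⟨e, -, rfl⟩ := Finset.mem_image.1 hp
      rw [Finset.mem_filter]
      exact ⟨Finset.mem_univ _, mul_one _⟩
    exact_mod_cast this
  have hAB' : ∑ g, u g * (1 - cl v g / ∑ y, v y ^ 2) + ∑ g, v g * (1 - cr u g / ∑ y, u y ^ 2) ≤
      2 / 25 := by
    have e1 : ∑ g, u g * (1 - cl v g / ∑ y, v y ^ 2) =
        (∑ e, (1 - (corrL c2 (c1 e) : ℝ) / corrL c2 1)) / N := by
      rw [q2]
      have h1 : ∀ g, u g * (1 - cl v g / ((corrL c2 1 : ℝ) / N ^ 2)) =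
          cn c1 g * ((1 - (corrL c2 g : ℝ) / corrL c2 1) / N) := by
        intro g
        have h0 : (corrL c2 1 : ℝ) ≠ 0 := by linarith
        rw [hu, lcl]
        field_simp
      simp_rw [h1]
      rw [cn_sum c1 (fun g => (1 - (corrL c2 g : ℝ) / corrL c2 1) / N), Finset.sum_div]
    have e2 : ∑ g, v g * (1 - cr u g / ∑ y, u y ^ 2) =
        (∑ e, (1 - (corrR c1 (c2 e) : ℝ) / corrR c1 1)) / N := by
      rw [q1]
      have h1 : ∀ g, v g * (1 - cr u g / ((corrR c1 1 : ℝ) / N ^ 2)) =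
          cn c2 g * ((1 - (corrR c1 g : ℝ) / corrR c1 1) / N) := by
        intro g
        have h0 : (corrR c1 1 : ℝ) ≠ 0 := by linarith
        rw [hv, lcr]
        field_simp
      simp_rw [h1]
      rw [cn_sum c2 (fun g => (1 - (corrR c1 g : ℝ) / corrR c1 1) / N), Finset.sum_div]
    have f1 : (∑ e, (1 - (corrL c2 (c1 e) : ℝ) / corrL c2 1)) / N ≤ A := by
      rw [div_le_iff₀ hN0]
      exact hA
    have f2 : (∑ e, (1 - (corrR c1 (c2 e) : ℝ) / corrR c1 1)) / N ≤ B := by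
      rw [div_le_iff₀ hN0]
      exact hB
    rw [e1, e2]
    linarith
  have core := l2core u v (fun g => by rw [hu]; exact div_nonneg (cn_nonneg _ _) hN0.le)
    (fun g => by rw [hv]; exact div_nonneg (cn_nonneg _ _) hN0.le) su sv hAB'
  have e3 : ∑ g, u g⁻¹ * v g =
      ((Finset.univ.filter fun p : E × E => c1 p.1 * c2 p.2 = 1).card : ℝ) / N ^ 2 := by
    rw [card_eq_sum]
    have h1 : ∀ g, u g⁻¹ * v g = cn c2 g * (cn c1 g⁻¹ / N ^ 2) := by
      intro g
      rw [hu, hv]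
      field_simp
    simp_rw [h1]
    rw [cn_sum c2 (fun g => cn c1 g⁻¹ / N ^ 2), ← Finset.sum_div]
    congr 1
    unfold cn
    rw [Finset.sum_comm]
    refine Finset.sum_congr rfl fun e _ => Finset.sum_congr rfl fun e' _ => ?_
    have : (c1 e = (c2 e')⁻¹) ↔ c1 e * c2 e' = 1 := by
      rw [eq_inv_iff_mul_eq_one]
    simp only [this]
  rw [e3, q1, q2] at core
  have g1 : Real.sqrt (1 / N) ≤ Real.sqrt ((corrR c1 1 : ℝ) / N ^ 2) := by
    apply Real.sqrt_le_sqrt
    rw [div_le_div_iff₀ hN0 (by positivity)]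
    nlinarith
  have g2 : Real.sqrt (1 / N) ≤ Real.sqrt ((corrL c2 1 : ℝ) / N ^ 2) := by
    apply Real.sqrt_le_sqrt
    rw [div_le_div_iff₀ hN0 (by positivity)]
    nlinarith
  have g3 : 1 / N ≤ Real.sqrt ((corrR c1 1 : ℝ) / N ^ 2) * Real.sqrt ((corrL c2 1 : ℝ) / N ^ 2) := by
    have h0 := Real.sqrt_nonneg (1 / N)
    have h1 := mul_le_mul g1 g2 h0 (h0.trans g1)
    rw [Real.mul_self_sqrt (by positivity)] at h1
    exact h1
  have g4 : 33 / 1000 * (1 / N) ≤
      ((Finset.univ.filter fun p : E × E => c1 p.1 * c2 p.2 = 1).card : ℝ) / N ^ 2 :=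
    (mul_le_mul_of_nonneg_left g3 (by norm_num)).trans core
  rw [le_div_iff₀ (by positivity)] at g4
  have g5 : 33 / 1000 * (1 / N) * N ^ 2 = 33 / 1000 * N := by
    field_simp
  rw [g5] at g4
  have g6 : (1 : ℝ) < ((Finset.univ.filter fun p : E × E => c1 p.1 * c2 p.2 = 1).card : ℝ) := by
    linarith
  exact_mod_cast g6

end

end Pool.Agent.PWI
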