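import Pool.Agent.PWM.Orb
import Pool.Agent.PWM.Meet

/-!
# PWM: a trivial curve in `70 k + 10` handles   (helper52)
-/

namespace Pool.Agent.PWI

open Finset

variable {g n : ℕ} {Q : Type*} [Group Q]

theorem pigeon (L : ℕ → ℝ) (B : ℝ) (k : ℕ) (hk : 1 ≤ k) (h0 : 0 ≤ L 5) (hM : L (5 + 35 * k) ≤ B) :
    ∃ j, 5 ≤ j ∧ j < 5 + 35 * k ∧ (35 * k : ℝ) * (L (j + 1) - L j) ≤ B := by
  by_contra hc
  push Not at hc
  have hk0 : (1 : ℝ) ≤ k := by exact_mod_cast hk
  have key : ∀ i, 1 ≤ i → i ≤ 35 * k → (i : ℝ) * B < (35 * k : ℝ) * L (5 + i) := by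
    intro i
    induction i with
    | zero => intro h; omega
    | succ i ih =>
      intro _ hi
      have h1 := hc (5 + i) (by omega) (by omega)
      rw [show 5 + i + 1 = 5 + (i + 1) by omega] at h1
      rcases Nat.eq_zero_or_pos i with h | h
      · subst h
        have : 0 ≤ (35 * k : ℝ) * L 5 := by positivity
        push_cast
        simp only [add_zero, zero_add] at h1 ⊢
        nlinarith
      · have h2 := ih h (by omega)
        push_cast
        nlinarith
  have h1 := key (35 * k) (by omega) le_rfl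
  push_cast at h1
  have h2 : B < L (5 + 35 * k) := lt_of_mul_lt_mul_left h1 (by positivity)
  linarith

theorem Sp_sub {q r : ℕ} {x : SG g n} (hx : x ∈ (Sp q r : Set (SG g n))) :
    x ∈ (Wi q r : Subgroup (SG g n)) := by
  obtain ⟨h, S, hS, rfl⟩ := hx
  exact hS.2.1 _ (sa_mem_Wi le_rfl h)

/-- Two consecutive subset products, not both empty, are simple together. -/
theorem cube_cube_Sp {l j : ℕ} (hj1 : 1 ≤ j) (hj : l + 2 * j ≤ g) (e1 e2 : Fin j → Bool)
    (he : (∃ i, e1 i = true) ∨ ∃ i, e2 i = true) :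
    cube (sa : ℕ → SG g n) l j e1 * cube sa (l + j) j e2 ∈
      (Sp l (l + 2 * j) : Set (SG g n)) := by
  by_cases h2 : ∃ i, e2 i = true
  · have hw2 : cube (sa : ℕ → SG g n) (l + j) j e2 ∈ (Sp (l + j) (l + 2 * j) : Set (SG g n)) := by
      have := cube_Sp (g := g) (n := n) (q := l + j) (j := j) (by omega) e2 h2
      rwa [show l + j + j = l + 2 * j by omega] at this
    by_cases h1 : ∃ i, e1 i = true
    · obtain ⟨-, S1, hS1, e⟩ := cube_Sp (g := g) (n := n) (q := l) (j := j) (by omega) e1 h1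
      have hfix : S1.1 (cube (sa : ℕ → SG g n) (l + j) j e2) = cube sa (l + j) j e2 :=
        hS1.fix (Or.inr le_rfl) (Sp_sub hw2)
      obtain ⟨h3, S2, hS2, e'⟩ := Sp_mul (g := g) (n := n) (q := l) (by omega)
        (Sp_left' (by omega) (by omega : l + 1 ≤ l + j) hw2)
      refine ⟨h3, S1 * S2, (hS1.mono le_rfl (by omega)).mul hS2, ?_⟩
      show _ = S1.1 (S2.1 (sa l))
      rw [← e', map_mul, hfix, e]
    · have h0 : ∀ i, e1 i = false := fun i => by
        by_contra hc
        exact h1 ⟨i, by simpa using hc⟩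
      rw [cube_false _ _ _ h0, one_mul]
      exact Sp_left' (by omega) (by omega) hw2
  · have h1 : ∃ i, e1 i = true := he.resolve_right h2
    have h0 : ∀ i, e2 i = false := fun i => by
      by_contra hc
      exact h2 ⟨i, by simpa using hc⟩
    rw [cube_false _ _ _ h0, mul_one]
    exact Sp_right (by omega) (cube_Sp (by omega) e1 h1)

private theorem sum_ratio_L [Fintype Q] [DecidableEq Q] {E : Type*} [Fintype E] (c : E → Q)
    (x : Q) : corL c x = (corrL c x : ℝ) := by
  unfold corL corrL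
  rw [← Fintype.sum_prod_type' (f := fun e e' => if x * c e = c e' then (1 : ℝ) else 0),
    Finset.sum_boole]

private theorem sum_ratio_R [Fintype Q] [DecidableEq Q] {E : Type*} [Fintype E] (c : E → Q)
    (x : Q) : corR c x = (corrR c x : ℝ) := by
  unfold corR corrR
  rw [← Fintype.sum_prod_type' (f := fun e e' => if c e * x = c e' then (1 : ℝ) else 0),
    Finset.sum_boole]

theorem triv_curve [Finite Q] {P : Subgroup (SG g n)} {ψ : SG g n → Q} (hψ : MulOn P ψ)
    (T : PMod g n) (l r k : ℕ) (hr : r ≤ g) (hlen : l + (70 * k + 10) ≤ r)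
    (hT : ∀ x ∈ (Wi l r : Subgroup (SG g n)), T.1 x ∈ P) (hQ : Nat.card Q ≤ 2 ^ k) :
    ∃ S : PMod g n, SuppI S l r ∧ ψ (T.1 (S.1 (sa l))) = 1 := by
  classical
  have := Fintype.ofFinite Q
  rcases Nat.eq_zero_or_pos k with hk | hk
  · subst hk
    rw [pow_zero] at hQ
    have h1 : Subsingleton Q := Finite.card_le_one_iff_subsingleton.1 hQ
    exact ⟨1, SuppI.one _ _, Subsingleton.elim _ _⟩
  have hfin := orb_finite hψ hr hT
  set O := hfin.toFinset with hO
  have hne : O.Nonempty := ⟨cut ψ T l r 1, by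
    rw [hO, Set.Finite.mem_toFinset]
    exact ⟨1, SuppI.one _ _, rfl⟩⟩
  have hcard : (0 : ℝ) < O.card := by
    have := Finset.card_pos.2 hne
    exact_mod_cast this
  -- the total entropy
  have hup : lam hfin l (5 + 35 * k) ≤ O.card * Real.log (Fintype.card Q) := by
    unfold lam
    refine (Finset.sum_le_sum fun h _ => ent_le _ _ _).trans (le_of_eq ?_)
    rw [Finset.sum_const, nsmul_eq_mul]
  have hlo : 0 ≤ lam hfin l 5 := Finset.sum_nonneg fun h _ => ent_nonneg _ _ _
  obtain ⟨j, hj5, hjM, hj⟩ := pigeon (fun j => lam hfin l j) _ k hk hlo hup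
  have hlogQ : Real.log (Fintype.card Q) ≤ k * Real.log 2 := by
    have hpos : (0 : ℝ) < Fintype.card Q := by
      have : 0 < Fintype.card Q := Fintype.card_pos
      exact_mod_cast this
    rw [← Real.log_pow]
    apply Real.log_le_log hpos
    rw [Nat.card_eq_fintype_card] at hQ
    exact_mod_cast hQ
  have hk0 : (0 : ℝ) < k := by exact_mod_cast hk
  have hinc : lam hfin l (j + 1) - lam hfin l j ≤ O.card * (1 / 50) := by
    have h1 : (35 * k : ℝ) * (lam hfin l (j + 1) - lam hfin l j) ≤ O.card * (k * Real.log 2) :=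
      hj.trans (mul_le_mul_of_nonneg_left hlogQ hcard.le)
    have h2 := Real.log_two_lt_d9
    have h3 : (O.card : ℝ) * (k * Real.log 2) ≤ (35 * k : ℝ) * (O.card * (1 / 50)) := by
      have h4 : Real.log 2 ≤ 0.7 := by linarith
      have h5 : (O.card : ℝ) * k * Real.log 2 ≤ O.card * k * 0.7 :=
        mul_le_mul_of_nonneg_left h4 (by positivity)
      calc (O.card : ℝ) * (k * Real.log 2) = O.card * k * Real.log 2 := by ring
        _ ≤ O.card * k * 0.7 := h5
        _ = (35 * k : ℝ) * (O.card * (1 / 50)) := by ring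
    have h6 := h1.trans h3
    exact le_of_mul_le_mul_left h6 (by positivity)
  -- averages
  have hroom : l + 2 * j ≤ r := by omega
  obtain ⟨N, hN⟩ : ∃ N : ℝ, N = (Fintype.card (Fin j → Bool) : ℝ) := ⟨_, rfl⟩
  have hN0 : 0 < N := by
    rw [hN]
    have : 0 < Fintype.card (Fin j → Bool) := Fintype.card_pos
    exact_mod_cast this
  let X : (SG g n → Q) → ℕ → Q := fun h i => h (sa i)
  let FA : (SG g n → Q) → ℝ := fun h => ∑ e : Fin j → Bool,
    (1 - corL (cube (X h) (l + j) j) (cube (X h) l j e) / corL (cube (X h) (l + j) j) 1)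
  let FB : (SG g n → Q) → ℝ := fun h => ∑ e : Fin j → Bool,
    (1 - corR (cube (X h) l j) (cube (X h) (l + j) j e) / corR (cube (X h) l j) 1)
  have hA : ∑ h ∈ O, FA h ≤ N * (2 * (O.card * (1 / 50))) := by
    rw [Finset.sum_comm]
    calc _ ≤ ∑ _e : Fin j → Bool, 2 * ((O.card : ℝ) * (1 / 50)) :=
          Finset.sum_le_sum fun e _ => (avg_left hψ hr hT hfin j (by omega) hroom e).trans
            (by linarith)
      _ = N * (2 * (O.card * (1 / 50))) := by
          rw [Finset.sum_const, nsmul_eq_mul, Finset.card_univ, hN]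
  have hB : ∑ h ∈ O, FB h ≤ N * (2 * (O.card * (1 / 50))) := by
    rw [Finset.sum_comm]
    calc _ ≤ ∑ _e : Fin j → Bool, 2 * ((O.card : ℝ) * (1 / 50)) :=
          Finset.sum_le_sum fun e _ => (avg_right hψ hr hT hfin j (by omega) hroom e).trans
            (by linarith)
      _ = N * (2 * (O.card * (1 / 50))) := by
          rw [Finset.sum_const, nsmul_eq_mul, Finset.card_univ, hN]
  obtain ⟨h, hh, hAB⟩ : ∃ h ∈ O, FA h + FB h ≤ N * (2 / 25) := by
    apply Finset.exists_le_of_sum_le hne
    rw [Finset.sum_add_distrib, Finset.sum_const, nsmul_eq_mul]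
    calc _ ≤ N * (2 * (O.card * (1 / 50))) + N * (2 * (O.card * (1 / 50))) := add_le_add hA hB
      _ = O.card * (N * (2 / 25)) := by ring
  rw [hO, Set.Finite.mem_toFinset] at hh
  -- two blocks meet
  have hE : 32 ≤ Fintype.card (Fin j → Bool) := by
    rw [Fintype.card_fun, Fintype.card_bool, Fintype.card_fin]
    calc 32 = 2 ^ 5 := by norm_num
      _ ≤ 2 ^ j := Nat.pow_le_pow_right (by norm_num) hj5
  have hmeet := meet hE (cube (X h) l j) (cube (X h) (l + j) j) (FA h / N) (FB h / N)
    (by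
      simp only [← sum_ratio_L]
      rw [← hN, div_mul_cancel₀ _ hN0.ne'])
    (by
      simp only [← sum_ratio_R]
      rw [← hN, div_mul_cancel₀ _ hN0.ne'])
    (by
      rw [← add_div, div_le_iff₀ hN0]
      linarith)
  obtain ⟨p, hp, hp0⟩ : ∃ p ∈ univ.filter (fun p : (Fin j → Bool) × (Fin j → Bool) =>
      cube (X h) l j p.1 * cube (X h) (l + j) j p.2 = 1),
      p ≠ ((fun _ => false), (fun _ => false)) :=
    Finset.exists_mem_ne hmeet _
  have hp1 := (Finset.mem_filter.1 hp).2
  have hpe : (∃ i, p.1 i = true) ∨ ∃ i, p.2 i = true := by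
    by_contra hc
    push Not at hc
    apply hp0
    apply Prod.ext
    · funext i
      simpa using hc.1 i
    · funext i
      simpa using hc.2 i
  obtain ⟨-, S2, hS2, e⟩ := cube_cube_Sp (g := g) (n := n) (l := l) (j := j) (by omega)
    (by omega) p.1 p.2 hpe
  have hm := orb_mul hψ hT hh
  have hval : h (S2.1 (sa l)) = 1 := by
    rw [← e, hm _ (Wi_mono le_rfl (by omega) (cube_mem (q := l) (r := l + j) le_rfl p.1)) _
      (Wi_mono (by omega) (by omega) (cube_mem (q := l + j) (r := l + j + j) le_rfl p.2)),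
      cube_map hm le_rfl (by omega), cube_map hm (by omega) (by omega)]
    exact hp1
  have hS2' := hS2.mono le_rfl hroom
  obtain ⟨S, hS, rfl⟩ := hh
  refine ⟨S * S2, hS.mul hS2', ?_⟩
  unfold cut at hval
  rw [if_pos (hS2'.2.1 _ (sa_mem_Wi le_rfl (by omega)))] at hval
  exact hval

end Pool.Agent.PWI
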