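import Pool.Agent.PWM.Triv
import Pool.Agent.PWM.Curve
import Pool.Agent.PWM.Chain3

/-!
# PWM: assembly
-/

namespace Pool.Agent.PWI

variable {g n : ℕ}

/-- A normal step of index at most `2 ^ k` costs `71 k + 9` handles. -/
theorem handles_lin (P N : Subgroup (SG g n)) (m k : ℕ) (hm : m ≤ g)
    (hno : (N.subgroupOf P).Normal) (hn : N.relIndex P ≠ 0) (hk : N.relIndex P ≤ 2 ^ k)
    (h : ContainsHandles P m) : ContainsHandles N (m - (71 * k + 9)) := by
  classical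
  have hfin : Finite (P ⧸ N.subgroupOf P) := by
    rw [Subgroup.relIndex, Subgroup.index] at hn
    exact Nat.finite_of_card_ne_zero hn
  obtain ⟨ψ, hψd⟩ : ∃ ψ : SG g n → P ⧸ N.subgroupOf P, ∀ x, ψ x =
      if h : x ∈ P then QuotientGroup.mk ⟨x, h⟩ else 1 := ⟨_, fun _ => rfl⟩
  have hψ : MulOn P ψ := by
    intro x hx y hy
    rw [hψd, hψd, hψd, dif_pos hx, dif_pos hy, dif_pos (P.mul_mem hx hy), ← QuotientGroup.mk_mul]
    rfl
  have hQ : Nat.card (P ⧸ N.subgroupOf P) ≤ 2 ^ k := hk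
  obtain ⟨T, hT⟩ := handles_homM hψ (70 * k + 10) k m (by omega)
    (fun T l r hr hl hT => triv_curve hψ T l r k hr hl hT hQ) hm hQ h
  have key : ∀ x ∈ P, ψ x = 1 → x ∈ N := by
    intro x hx h1
    rw [hψd, dif_pos hx] at h1
    have h2 := (QuotientGroup.eq_one_iff _).1 h1
    rwa [Subgroup.mem_subgroupOf] at h2
  exact ⟨T, fun i hi => ⟨key _ (hT i (by omega)).1.1 (hT i (by omega)).2.1,
    key _ (hT i (by omega)).1.2 (hT i (by omega)).2.2⟩⟩

theorem handles_linchain {P M : Subgroup (SG g n)} {c : ℕ} (h : LinCost P M c) (m : ℕ)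
    (hm : m ≤ g) (hP : ContainsHandles P m) : ContainsHandles M (m - c) := by
  induction h with
  | refl => exact hP
  | @cyc L N c hL hle hno hcy ih =>
    exact handles_mono (by omega) (handles_cyclic L N (m - c) (by omega) hno hcy ih)
  | @idx L N c e hL hle hn he ih =>
    exact handles_mono (by omega) (handles_index L N hn (m - c) (by omega) ih)
  | @nor L N c e k hL hle hno hn hk he ih =>
    exact handles_mono (by omega) (handles_lin L N (m - c) k (by omega) hno hn hk ih)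

theorem final4 (g n : ℕ) (hg : 3 ≤ g) (H : Subgroup (PMod g n)) [H.FiniteIndex]
    (M P : Subgroup (SG g n)) [M.Normal] [M.FiniteIndex] (c : ℕ) (hc : c + 2 ≤ g)
    (hM : LinCost P M c) (hP : ContainsHandles P (c + 2))
    (hH : ∀ x ∈ M, ∀ y ∈ M, push (x * y * x⁻¹ * y⁻¹) ∈ H)
    (f : H →* Multiplicative ℤ) (x : SG g n) (hx : push x ∈ H) : f ⟨push x, hx⟩ = 1 := by
  obtain ⟨T, hT⟩ := handles_linchain hM (c + 2) hc hP
  have h0 := hT 0 (by omega)
  have h1 := hT 1 (by omega)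
  have hN : M.index ≠ 0 := Subgroup.FiniteIndex.index_ne_zero
  have hxM : x ^ M.index ∈ M := Subgroup.pow_index_mem M x
  have hxH : push (x ^ M.index) ∈ H := by
    rw [map_pow]; exact H.pow_mem hx _
  have h := final_aux hg H f M T h0.1 h0.2 h1.1 h1.2 hH (x ^ M.index) hxM hxH
  have e : (⟨push (x ^ M.index), hxH⟩ : H) = ⟨push x, hx⟩ ^ M.index := by
    apply Subtype.ext
    show push (x ^ M.index) = push x ^ M.index
    rw [map_pow]
  rw [e, map_pow] at h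
  exact pow_eq_one_int hN h

theorem main6 (g n : ℕ) (hg : 3 ≤ g) (H : Subgroup (Mcg g n)) [H.FiniteIndex]
    (M P : Subgroup (Pi1 g n)) [M.Normal] [M.FiniteIndex] (c : ℕ) (hc : c + 2 ≤ g)
    (hM : LinCost P M c) (hP : HasHandles P (c + 2))
    (hH : ∀ x ∈ M, ∀ y ∈ M, pushPt (x * y * x⁻¹ * y⁻¹) ∈ H)
    (f : H →* Multiplicative ℤ) (x : Pi1 g n) (hx : pushPt x ∈ H) : f ⟨pushPt x, hx⟩ = 1 :=
  @final4 g n hg H ‹_› M P ‹_› ‹_› c hc hM hP hH f x hx

/-- All covers of degree at most `2 ^ k`, `71 k + 11 ≤ g`. -/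
theorem main7 (g n : ℕ) (hg : 3 ≤ g) (H : Subgroup (Mcg g n)) [H.FiniteIndex]
    (M : Subgroup (Pi1 g n)) [M.Normal] [M.FiniteIndex] (k : ℕ) (hk : 71 * k + 11 ≤ g)
    (hM : M.index ≤ 2 ^ k)
    (hH : ∀ x ∈ M, ∀ y ∈ M, pushPt (x * y * x⁻¹ * y⁻¹) ∈ H)
    (f : H →* Multiplicative ℤ) (x : Pi1 g n) (hx : pushPt x ∈ H) : f ⟨pushPt x, hx⟩ = 1 :=
  main6 g n hg H M ⊤ (71 * k + 9) hk
    (LinCost.of_index M k Subgroup.FiniteIndex.index_ne_zero hM)
    ⟨1, fun _ _ => ⟨Subgroup.mem_top _, Subgroup.mem_top _⟩⟩ hH f x hx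

end Pool.Agent.PWI
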