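import Pool.Agent.PWM.Corr

/-!
# PWM: the orbit of a homomorphism on an interval of handles, and averages over it   (helper52)
-/

namespace Pool.Agent.PWI

open Finset

variable {g n : ℕ} {Q : Type*} [Group Q]

open Classical in
/-- The values of `ψ ∘ T ∘ S` on the interval, and `1` outside. -/
noncomputable def cut (ψ : SG g n → Q) (T : PMod g n) (l r : ℕ) (S : PMod g n) : SG g n → Q :=
  fun x => if x ∈ (Wi l r : Subgroup (SG g n)) then ψ (T.1 (S.1 x)) else 1

/-- The orbit. -/
def Orb (ψ : SG g n → Q) (T : PMod g n) (l r : ℕ) : Set (SG g n → Q) :=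
  {h | ∃ S : PMod g n, SuppI S l r ∧ h = cut ψ T l r S}

theorem SuppI.mem_iff {R : PMod g n} {l r : ℕ} (hR : SuppI R l r) (x : SG g n) :
    R.1 x ∈ (Wi l r : Subgroup (SG g n)) ↔ x ∈ (Wi l r : Subgroup (SG g n)) := by
  constructor
  · intro h
    have h2 := hR.2.2 _ h
    rwa [act_inv_eq (T := R) (x := x) rfl] at h2
  · exact hR.2.1 x

theorem orb_comp {ψ : SG g n → Q} {T : PMod g n} {l r : ℕ} {h : SG g n → Q}
    (hh : h ∈ Orb ψ T l r) {R : PMod g n} (hR : SuppI R l r) :
    (fun x => h (R.1 x)) ∈ Orb ψ T l r := by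
  obtain ⟨S, hS, rfl⟩ := hh
  refine ⟨S * R, hS.mul hR, ?_⟩
  funext x
  unfold cut
  by_cases hx : x ∈ (Wi l r : Subgroup (SG g n))
  · rw [if_pos hx, if_pos ((hR.mem_iff x).2 hx)]
    rfl
  · rw [if_neg hx, if_neg (fun h => hx ((hR.mem_iff x).1 h))]

theorem orb_mul {P : Subgroup (SG g n)} {ψ : SG g n → Q} (hψ : MulOn P ψ) {T : PMod g n}
    {l r : ℕ} (hT : ∀ x ∈ (Wi l r : Subgroup (SG g n)), T.1 x ∈ P) {h : SG g n → Q}
    (hh : h ∈ Orb ψ T l r) : MulOn (Wi l r : Subgroup (SG g n)) h := by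
  obtain ⟨S, hS, rfl⟩ := hh
  intro x hx y hy
  unfold cut
  rw [if_pos hx, if_pos hy, if_pos ((Wi l r).mul_mem hx hy), map_mul, map_mul]
  exact hψ _ (hT _ (hS.2.1 x hx)) _ (hT _ (hS.2.1 y hy))

theorem orb_finite [Finite Q] {P : Subgroup (SG g n)} {ψ : SG g n → Q} (hψ : MulOn P ψ)
    {T : PMod g n} {l r : ℕ} (hr : r ≤ g)
    (hT : ∀ x ∈ (Wi l r : Subgroup (SG g n)), T.1 x ∈ P) : (Orb ψ T l r).Finite := by
  refine Set.Finite.of_injOn (f := fun (h : SG g n → Q) (i : Fin g) => (h (sa i.val), h (sb i.val)))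
    (t := Set.univ) (fun _ _ => Set.mem_univ _) ?_ Set.finite_univ
  intro h hh h' hh' e
  have hm := orb_mul hψ hT hh
  have hm' := orb_mul hψ hT hh'
  have key : ∀ x ∈ (Wi l r : Subgroup (SG g n)), h x = h' x := by
    intro x hx
    have hx' := hx
    unfold Wi at hx
    induction hx using Subgroup.closure_induction with
    | mem x hx =>
      obtain ⟨k, h1, h2, h3⟩ := hx
      have e1 := congrFun e ⟨k, by omega⟩
      simp only [Prod.mk.injEq] at e1
      rcases h3 with rfl | rfl
      · exact e1.1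
      · exact e1.2
    | one => rw [hm.one, hm'.one]
    | mul x y hx hy ihx ihy =>
      rw [hm x hx y hy, hm' x hx y hy, ihx hx, ihy hy]
    | inv x hx ihx => rw [hm.inv hx, hm'.inv hx, ihx hx]
  funext x
  by_cases hx : x ∈ (Wi l r : Subgroup (SG g n))
  · exact key x hx
  · obtain ⟨S, hS, rfl⟩ := hh
    obtain ⟨S', hS', rfl⟩ := hh'
    unfold cut
    rw [if_neg hx, if_neg hx]

/-- Sums over the orbit are invariant. -/
theorem orb_sum {ψ : SG g n → Q} {T : PMod g n} {l r : ℕ} (hfin : (Orb ψ T l r).Finite)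
    {R : PMod g n} (hR : SuppI R l r) (F : (SG g n → Q) → ℝ) :
    ∑ h ∈ hfin.toFinset, F (fun x => h (R.1 x)) = ∑ h ∈ hfin.toFinset, F h := by
  refine Finset.sum_nbij' (fun h => fun x => h (R.1 x)) (fun h => fun x => h ((R⁻¹).1 x))
    ?_ ?_ ?_ ?_ ?_
  · intro h hh
    rw [Set.Finite.mem_toFinset] at hh ⊢
    exact orb_comp hh hR
  · intro h hh
    rw [Set.Finite.mem_toFinset] at hh ⊢
    exact orb_comp hh hR.inv
  · intro h _
    funext x
    show h (R.1 ((R.1)⁻¹ x)) = h x
    simp
  · intro h _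
    funext x
    show h ((R.1)⁻¹ (R.1 x)) = h x
    simp
  · intro h _
    rfl

section avg
variable [Fintype Q] [DecidableEq Q]

/-- The sum of the entropies over the orbit. -/
noncomputable def lam {ψ : SG g n → Q} {T : PMod g n} {l r : ℕ} (hfin : (Orb ψ T l r).Finite)
    (q j : ℕ) : ℝ := ∑ h ∈ hfin.toFinset, ent (fun i => h (sa i)) q j

theorem ent_congr {x y : ℕ → Q} {q q' j : ℕ} (h : ∀ i < j, x (q + i) = y (q' + i)) :
    ent x q j = ent y q' j := by
  unfold ent coin
  rw [show cube x q j = cube y q' j from funext fun e => cube_congr h e]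

theorem lam_shift {ψ : SG g n → Q} {T : PMod g n} {l r : ℕ} (hr : r ≤ g)
    (hfin : (Orb ψ T l r).Finite) (q j : ℕ) (hq : l ≤ q) (hj : q + j + 1 ≤ r) :
    lam hfin (q + 1) j = lam hfin q j := by
  obtain ⟨S, hS, e⟩ := shiftA (g := g) (n := n) q j (by omega)
  unfold lam
  rw [← orb_sum hfin (hS.mono hq hj) (fun h => ent (fun i => h (sa i)) (q + 1) j)]
  refine Finset.sum_congr rfl fun h _ => ?_
  exact ent_congr fun i hi => by
    show h (S.1 (sa (q + 1 + i))) = h (sa (q + i))
    rw [e i hi]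

theorem lam_const {ψ : SG g n → Q} {T : PMod g n} {l r : ℕ} (hr : r ≤ g)
    (hfin : (Orb ψ T l r).Finite) (d j : ℕ) (hj : l + d + j ≤ r) :
    lam hfin (l + d) j = lam hfin l j := by
  induction d with
  | zero => rfl
  | succ d ih =>
    rw [← ih (by omega)]
    exact lam_shift hr hfin (l + d) j (by omega) (by omega)

/-- Left correlations of the second block with the subset products of the first block. -/
theorem avg_left {P : Subgroup (SG g n)} {ψ : SG g n → Q} (hψ : MulOn P ψ) {T : PMod g n}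
    {l r : ℕ} (hr : r ≤ g) (hT : ∀ x ∈ (Wi l r : Subgroup (SG g n)), T.1 x ∈ P)
    (hfin : (Orb ψ T l r).Finite) (j : ℕ) (hj1 : 1 ≤ j) (hj : l + 2 * j ≤ r)
    (e : Fin j → Bool) :
    ∑ h ∈ hfin.toFinset, (1 - corL (cube (fun i => h (sa i)) (l + j) j)
        (cube (fun i => h (sa i)) l j e) / corL (cube (fun i => h (sa i)) (l + j) j) 1) ≤
      2 * (lam hfin l (j + 1) - lam hfin l j) := by
  -- the basic inequality
  have base : ∑ h ∈ hfin.toFinset, (1 - corL (cube (fun i => h (sa i)) (l + j) j)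
        (h (sa (l + (j - 1)))) / corL (cube (fun i => h (sa i)) (l + j) j) 1) ≤
      2 * (lam hfin l (j + 1) - lam hfin l j) := by
    rw [← lam_const hr hfin (j - 1) (j + 1) (by omega), ← lam_const hr hfin j j (by omega)]
    unfold lam
    rw [← Finset.sum_sub_distrib, Finset.mul_sum]
    refine Finset.sum_le_sum fun h _ => ?_
    have h1 := ent_left (fun i => h (sa i)) (l + (j - 1)) j
    rw [show l + (j - 1) + 1 = l + j by omega] at h1
    linarith
  by_cases he : ∃ i, e i = true
  · have h1 : cube (sa : ℕ → SG g n) l j e ∈ (Sp l (l + j) : Set (SG g n)) :=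
      cube_Sp (by omega) e he
    obtain ⟨-, S0, hS0, e0⟩ := h1
    obtain ⟨R, hR, f1, -⟩ := bring (g := g) (n := n) l (l + (j - 1)) (by omega) (by omega)
    rw [show l + (j - 1) + 1 = l + j by omega] at hR
    have hS : SuppI (S0 * R) l (l + j) := hS0.mul hR
    have e1 : (S0 * R).1 (sa (l + (j - 1))) = cube (sa : ℕ → SG g n) l j e := by
      show S0.1 (R.1 (sa (l + (j - 1)))) = _
      rw [f1, e0]
    refine le_trans (le_of_eq ?_) base
    rw [← orb_sum hfin (hS.mono le_rfl (by omega)) (fun h =>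
      (1 - corL (cube (fun i => h (sa i)) (l + j) j)
        (h (sa (l + (j - 1)))) / corL (cube (fun i => h (sa i)) (l + j) j) 1))]
    refine Finset.sum_congr rfl fun h hh => ?_
    rw [Set.Finite.mem_toFinset] at hh
    have e2 : cube (fun i => h ((S0 * R).1 (sa i))) (l + j) j =
        cube (fun i => h (sa i)) (l + j) j := by
      funext e'
      refine cube_congr (fun i hi => ?_) e'
      show h ((S0 * R).1 (sa (l + j + i))) = h (sa (l + j + i))
      rw [hS.fix (Or.inr le_rfl) (sa_mem_Wi (show l + j ≤ l + j + i by omega)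
        (Nat.lt_succ_self _))]
    have e3 : cube (fun i => h (sa i)) l j e = h ((S0 * R).1 (sa (l + (j - 1)))) := by
      rw [e1, cube_map (orb_mul hψ hT hh) le_rfl (by omega)]
    rw [e3]
    show _ = 1 - corL (cube (fun i => h ((S0 * R).1 (sa i))) (l + j) j)
      (h ((S0 * R).1 (sa (l + (j - 1))))) /
      corL (cube (fun i => h ((S0 * R).1 (sa i))) (l + j) j) 1
    rw [e2]
  · have h0 : ∀ i, e i = false := fun i => by
      by_contra hc
      exact he ⟨i, by simpa using hc⟩
    have hz : ∑ h ∈ hfin.toFinset, (1 - corL (cube (fun i => h (sa i)) (l + j) j)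
        (cube (fun i => h (sa i)) l j e) / corL (cube (fun i => h (sa i)) (l + j) j) 1) = 0 := by
      refine Finset.sum_eq_zero fun h _ => ?_
      rw [cube_false _ _ _ h0, div_self (corL_one_pos _).ne', sub_self]
    rw [hz]
    refine le_trans (Finset.sum_nonneg fun h _ => ?_) base
    rw [sub_nonneg, div_le_one (corL_one_pos _)]
    exact corL_le _ _

/-- Right correlations of the first block with the subset products of the second block. -/
theorem avg_right {P : Subgroup (SG g n)} {ψ : SG g n → Q} (hψ : MulOn P ψ) {T : PMod g n}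
    {l r : ℕ} (hr : r ≤ g) (hT : ∀ x ∈ (Wi l r : Subgroup (SG g n)), T.1 x ∈ P)
    (hfin : (Orb ψ T l r).Finite) (j : ℕ) (hj1 : 1 ≤ j) (hj : l + 2 * j ≤ r)
    (e : Fin j → Bool) :
    ∑ h ∈ hfin.toFinset, (1 - corR (cube (fun i => h (sa i)) l j)
        (cube (fun i => h (sa i)) (l + j) j e) / corR (cube (fun i => h (sa i)) l j) 1) ≤
      2 * (lam hfin l (j + 1) - lam hfin l j) := by
  have base : ∑ h ∈ hfin.toFinset, (1 - corR (cube (fun i => h (sa i)) l j)
        (h (sa (l + j))) / corR (cube (fun i => h (sa i)) l j) 1) ≤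
      2 * (lam hfin l (j + 1) - lam hfin l j) := by
    unfold lam
    rw [← Finset.sum_sub_distrib, Finset.mul_sum]
    refine Finset.sum_le_sum fun h _ => ?_
    have h1 := ent_right (fun i => h (sa i)) l j
    linarith
  by_cases he : ∃ i, e i = true
  · have h1 : cube (sa : ℕ → SG g n) (l + j) j e ∈ (Sp (l + j) (l + j + j) : Set (SG g n)) :=
      cube_Sp (by omega) e he
    obtain ⟨-, S, hS, e0⟩ := h1
    refine le_trans (le_of_eq ?_) base
    rw [← orb_sum hfin (hS.mono (by omega) (by omega)) (fun h =>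
      (1 - corR (cube (fun i => h (sa i)) l j)
        (h (sa (l + j))) / corR (cube (fun i => h (sa i)) l j) 1))]
    refine Finset.sum_congr rfl fun h hh => ?_
    rw [Set.Finite.mem_toFinset] at hh
    have e2 : cube (fun i => h (S.1 (sa i))) l j = cube (fun i => h (sa i)) l j := by
      funext e'
      refine cube_congr (fun i hi => ?_) e'
      show h (S.1 (sa (l + i))) = h (sa (l + i))
      rw [hS.fix (Or.inl (show l + j ≤ l + j by omega)) (sa_mem_Wi (show l ≤ l + i by omega)
        (show l + i < l + j by omega))]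
    have e3 : cube (fun i => h (sa i)) (l + j) j e = h (S.1 (sa (l + j))) := by
      rw [← e0, cube_map (orb_mul hψ hT hh) (by omega) (by omega)]
    rw [e3]
    show _ = 1 - corR (cube (fun i => h (S.1 (sa i))) l j)
      (h (S.1 (sa (l + j)))) / corR (cube (fun i => h (S.1 (sa i))) l j) 1
    rw [e2]
  · have h0 : ∀ i, e i = false := fun i => by
      by_contra hc
      exact he ⟨i, by simpa using hc⟩
    have hz : ∑ h ∈ hfin.toFinset, (1 - corR (cube (fun i => h (sa i)) l j)
        (cube (fun i => h (sa i)) (l + j) j e) / corR (cube (fun i => h (sa i)) l j) 1) = 0 := by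
      refine Finset.sum_eq_zero fun h _ => ?_
      rw [cube_false _ _ _ h0, corR_one, div_self (corL_one_pos _).ne', sub_self]
    rw [hz]
    refine le_trans (Finset.sum_nonneg fun h _ => ?_) base
    rw [sub_nonneg, corR_one, div_le_one (corL_one_pos _)]
    exact corR_le _ _

end avg

end Pool.Agent.PWI
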