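import Pool.Agent.PWK.Val

/-!
# PWM: sliding a handle with trivial `a` changes no value of the other handles
-/

namespace Pool.Agent.PWI

open FreeGroup

namespace LocX

def Wf := mk4 a (a'⁻¹ * b) (k * a' * k⁻¹) (b' * a'⁻¹ * k⁻¹)
def Wg := mk4 a (k⁻¹ * a' * k * b) (k⁻¹ * a' * k) (b' * a' * k)

end LocX

theorem locW : ∃ θ : StF 2 0, θ.1 (of (Gen.a 0)) = of (Gen.a 0) ∧
    θ.1 (of (Gen.b 0)) = (of (Gen.a 1))⁻¹ * of (Gen.b 0) ∧
    θ.1 (of (Gen.a 1)) = ((of (Gen.a 1))⁻¹ * of (Gen.b 0) * of (Gen.a 0) * (of (Gen.b 0))⁻¹) *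
      of (Gen.a 1) * ((of (Gen.a 1))⁻¹ * of (Gen.b 0) * of (Gen.a 0) * (of (Gen.b 0))⁻¹)⁻¹ ∧
    θ.1 (of (Gen.b 1)) = of (Gen.b 1) * (of (Gen.a 1))⁻¹ *
      ((of (Gen.a 1))⁻¹ * of (Gen.b 0) * of (Gen.a 0) * (of (Gen.b 0))⁻¹)⁻¹ := by
  refine ⟨mkSt 2 LocX.Wf LocX.Wg
    (forallGen2 (p := fun x => FreeGroup.lift LocX.Wf (LocX.Wg x) = of x) (by decide))
    (forallGen2 (p := fun x => FreeGroup.lift LocX.Wg (LocX.Wf x) = of x) (by decide))
    (by decide), ?_, ?_, ?_, ?_⟩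
  all_goals rw [mkSt_apply]; decide

variable {g n : ℕ}

/-- The slide of handle `q` fixing `a_q`, with its effect on the next handle. -/
theorem exW (q : ℕ) (h : q + 1 < g) : ∃ S : PMod g n, SuppI S q (q + 2) ∧
    S.1 (sa q) = sa q ∧ S.1 (sb q) = (sa (q + 1))⁻¹ * sb q ∧
    S.1 (sa (q + 1)) = ((sa (q + 1))⁻¹ * sb q * sa q * (sb q)⁻¹) * sa (q + 1) *
      ((sa (q + 1))⁻¹ * sb q * sa q * (sb q)⁻¹)⁻¹ ∧
    S.1 (sb (q + 1)) = sb (q + 1) * (sa (q + 1))⁻¹ *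
      ((sa (q + 1))⁻¹ * sb q * sa q * (sb q)⁻¹)⁻¹ := by
  obtain ⟨θ, h1, h2, h3, h4⟩ := locW
  obtain ⟨S, hS, e⟩ := ext_supp (g := g) (n := n) 2 q (by omega) θ
  refine ⟨S, hS, ?_, ?_, ?_, ?_⟩
  · have := e (FreeGroup.of (Gen.a 0))
    rw [h1, iota_a] at this
    exact this
  · have := e (FreeGroup.of (Gen.b 0))
    rw [h2, _root_.map_mul, _root_.map_inv, iota_a, iota_b] at this
    exact this
  · have := e (FreeGroup.of (Gen.a 1))
    rw [h3] at this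
    simp only [_root_.map_mul, _root_.map_inv, iota_a, iota_b] at this
    exact this
  · have := e (FreeGroup.of (Gen.b 1))
    rw [h4] at this
    simp only [_root_.map_mul, _root_.map_inv, iota_a, iota_b] at this
    exact this

/-- The universal property of a slide of `b_l` by `x⁻¹`. -/
def Slid (Q : Type*) [Group Q] (l r : ℕ) (x : SG g n) (S : PMod g n) : Prop :=
  SuppI S l r ∧ S.1 (sa l) = sa l ∧ ∀ F : SG g n → Q, MulOn (Wi l r) F → F (sa l) = 1 →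
    (∀ y ∈ (Wi (l + 1) r : Subgroup (SG g n)), F (S.1 y) = F y) ∧
      F (S.1 (sb l)) = (F x)⁻¹ * F (sb l)

variable {Q : Type*} [Group Q] [Finite Q]

theorem MulOn.comp_supp {l r : ℕ} {F : SG g n → Q} (hF : MulOn (Wi l r) F) {S : PMod g n}
    (hS : SuppI S l r) : MulOn (Wi l r) (fun x => F (S.1 x)) := by
  intro x hx y hy
  show F (S.1 (x * y)) = F (S.1 x) * F (S.1 y)
  rw [_root_.map_mul, hF _ (hS.2.1 x hx) _ (hS.2.1 y hy)]

theorem act_inv_apply (S : PMod g n) (x : SG g n) : S.1 ((S⁻¹).1 x) = x := by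
  show S.1 ((S.1)⁻¹ x) = x
  simp

theorem act_inv_apply' (S : PMod g n) (x : SG g n) : (S⁻¹).1 (S.1 x) = x := by
  show (S.1)⁻¹ (S.1 x) = x
  simp

theorem Slid.one (l r : ℕ) : Slid Q l r (1 : SG g n) (1 : PMod g n) := by
  refine ⟨SuppI.one _ _, rfl, fun F hF _ => ⟨fun y _ => rfl, ?_⟩⟩
  rw [hF.one, inv_one, one_mul]
  rfl

theorem Slid.mul {l r : ℕ} {x y : SG g n} (hx : x ∈ (Wi (l + 1) r : Subgroup (SG g n)))
    (hy : y ∈ (Wi (l + 1) r : Subgroup (SG g n))) {S T : PMod g n} (hS : Slid Q l r x S)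
    (hT : Slid Q l r y T) : Slid Q l r (x * y) (S * T) := by
  refine ⟨hS.1.mul hT.1, ?_, fun F hF h1 => ?_⟩
  · show S.1 (T.1 (sa l)) = sa l
    rw [hT.2.1, hS.2.1]
  · have a1 := hS.2.2 F hF h1
    have a2 := hT.2.2 (fun x => F (S.1 x)) (hF.comp_supp hS.1)
      (by show F (S.1 (sa l)) = 1; rw [hS.2.1, h1])
    have hx' := Wi_mono (Nat.le_succ l) (le_refl r) hx
    have hy' := Wi_mono (Nat.le_succ l) (le_refl r) hy
    refine ⟨fun z hz => ?_, ?_⟩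
    · show F (S.1 (T.1 z)) = F z
      exact (a2.1 z hz).trans (a1.1 z hz)
    · show F (S.1 (T.1 (sb l))) = _
      refine a2.2.trans ?_
      show (F (S.1 y))⁻¹ * F (S.1 (sb l)) = _
      rw [a1.1 y hy, a1.2, hF _ hx' _ hy', mul_inv_rev, mul_assoc]

theorem Slid.inv {l r : ℕ} {x : SG g n} (hx : x ∈ (Wi (l + 1) r : Subgroup (SG g n)))
    {S : PMod g n} (hS : Slid Q l r x S) : Slid Q l r x⁻¹ S⁻¹ := by
  have hfix : (S⁻¹).1 (sa l) = sa l := by
    conv_lhs => rw [← hS.2.1]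
    exact act_inv_apply' S _
  refine ⟨hS.1.inv, hfix, fun F hF h1 => ?_⟩
  have a := hS.2.2 (fun x => F ((S⁻¹).1 x)) (hF.comp_supp hS.1.inv)
    (by show F ((S⁻¹).1 (sa l)) = 1; rw [hfix, h1])
  have hx' := Wi_mono (Nat.le_succ l) (le_refl r) hx
  have key : ∀ z ∈ (Wi (l + 1) r : Subgroup (SG g n)), F ((S⁻¹).1 z) = F z := by
    intro z hz
    have h2 : F ((S⁻¹).1 (S.1 z)) = F ((S⁻¹).1 z) := a.1 z hz
    rw [act_inv_apply'] at h2
    exact h2.symm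
  refine ⟨key, ?_⟩
  have h3 : F ((S⁻¹).1 (S.1 (sb l))) = (F ((S⁻¹).1 x))⁻¹ * F ((S⁻¹).1 (sb l)) := a.2
  rw [act_inv_apply', key x hx] at h3
  rw [h3, hF.inv hx']
  group

/-- The basic slide. -/
theorem Slid.base {l r : ℕ} (h : l + 1 < r) (hr : r ≤ g) :
    ∃ S : PMod g n, Slid Q l r (sa (l + 1)) S := by
  obtain ⟨S, hS, f1, f2, f3, f4⟩ := exW (g := g) (n := n) l (by omega)
  have hS' : SuppI S l r := hS.mono le_rfl (by omega)
  refine ⟨S, hS', f1, fun F hF h1 => ?_⟩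
  have ma : (sa l : SG g n) ∈ (Wi l r : Subgroup (SG g n)) := sa_mem_Wi le_rfl (by omega)
  have mb : (sb l : SG g n) ∈ (Wi l r : Subgroup (SG g n)) := sb_mem_Wi le_rfl (by omega)
  have ma' : (sa (l + 1) : SG g n) ∈ (Wi l r : Subgroup (SG g n)) :=
    sa_mem_Wi (by omega) (by omega)
  have mb' : (sb (l + 1) : SG g n) ∈ (Wi l r : Subgroup (SG g n)) :=
    sb_mem_Wi (by omega) (by omega)
  -- the value of the conjugator
  have mk1 : (sa (l + 1) : SG g n)⁻¹ * sb l ∈ (Wi l r : Subgroup (SG g n)) :=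
    Subgroup.mul_mem _ (Subgroup.inv_mem _ ma') mb
  have mk2 : (sa (l + 1) : SG g n)⁻¹ * sb l * sa l ∈ (Wi l r : Subgroup (SG g n)) :=
    Subgroup.mul_mem _ mk1 ma
  have mk3 : (sa (l + 1) : SG g n)⁻¹ * sb l * sa l * (sb l)⁻¹ ∈
      (Wi l r : Subgroup (SG g n)) :=
    Subgroup.mul_mem _ mk2 (Subgroup.inv_mem _ mb)
  have vk : F ((sa (l + 1))⁻¹ * sb l * sa l * (sb l)⁻¹) = (F (sa (l + 1)))⁻¹ := by
    rw [hF _ mk2 _ (Subgroup.inv_mem _ mb), hF _ mk1 _ ma, hF _ (Subgroup.inv_mem _ ma') _ mb,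
      hF.inv ma', hF.inv mb, h1]
    group
  have va : F (S.1 (sa (l + 1))) = F (sa (l + 1)) := by
    rw [f3, hF _ (Subgroup.mul_mem _ mk3 ma') _ (Subgroup.inv_mem _ mk3), hF _ mk3 _ ma',
      hF.inv mk3, vk]
    group
  have vb : F (S.1 (sb (l + 1))) = F (sb (l + 1)) := by
    rw [f4, hF _ (Subgroup.mul_mem _ mb' (Subgroup.inv_mem _ ma')) _ (Subgroup.inv_mem _ mk3),
      hF _ mb' _ (Subgroup.inv_mem _ ma'), hF.inv mk3, hF.inv ma', vk]
    group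
  refine ⟨?_, ?_⟩
  · intro y hy
    have key : ∀ z ∈ (Wi (l + 1) r : Subgroup (SG g n)), F (S.1 z) = F z := by
      intro z hz
      have hzz := hz
      unfold Wi at hz
      have hW : ∀ w ∈ Subgroup.closure {x : SG g n | ∃ k, l + 1 ≤ k ∧ k < r ∧
          (x = sa k ∨ x = sb k)}, w ∈ (Wi l r : Subgroup (SG g n)) := fun w hw =>
        Wi_mono (Nat.le_succ l) (le_refl r) hw
      clear hzz
      induction hz using Subgroup.closure_induction with
      | mem x hx =>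
        obtain ⟨k, k1, k2, hk⟩ := hx
        rcases Nat.lt_or_ge k (l + 2) with h5 | h5
        · have : k = l + 1 := by omega
          subst this
          rcases hk with rfl | rfl
          · exact va
          · exact vb
        · have h6 := hS.1.1 k (by simp only [Set.mem_ofPred_eq]; omega)
          rcases hk with rfl | rfl
          · rw [h6.1]
          · rw [h6.2]
      | one => rw [_root_.map_one]
      | mul x y hx hy ix iy =>
        rw [_root_.map_mul, hF _ (hS'.2.1 _ (hW x hx)) _ (hS'.2.1 _ (hW y hy)), ix, iy,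
          hF _ (hW x hx) _ (hW y hy)]
      | inv x hx ix =>
        rw [_root_.map_inv, hF.inv (hS'.2.1 _ (hW x hx)), ix, hF.inv (hW x hx)]
    exact key y hy
  · rw [f2, hF _ (Subgroup.inv_mem _ ma') _ mb, hF.inv ma']

/-- Slides along simple curves. -/
theorem Slid.sim {l r : ℕ} (hr : r ≤ g) {v : SG g n}
    (hv : v ∈ (Sim (l + 1) r : Set (SG g n))) : ∃ S : PMod g n, Slid Q l r v S := by
  rcases hv with rfl | ⟨h, S1, hS1, rfl⟩
  · exact ⟨1, Slid.one l r⟩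
  · obtain ⟨R, hR⟩ := Slid.base (Q := Q) (n := n) (l := l) (r := r) h hr
    have hS1' := hS1.mono (by omega : l ≤ l + 1) (le_refl r)
    have ea : S1.1 (sa l) = sa l :=
      hS1.fix (Or.inl le_rfl) (sa_mem_Wi le_rfl (Nat.lt_succ_self l))
    have eb : S1.1 (sb l) = sb l :=
      hS1.fix (Or.inl le_rfl) (sb_mem_Wi le_rfl (Nat.lt_succ_self l))
    refine ⟨S1 * (R * S1⁻¹), hS1'.mul (hR.1.mul hS1'.inv), ?_, fun F hF h1 => ?_⟩
    · show S1.1 (R.1 ((S1⁻¹).1 (sa l))) = sa l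
      rw [act_inv_eq ea, hR.2.1, ea]
    · have a := hR.2.2 (fun x => F (S1.1 x)) (hF.comp_supp hS1')
        (by show F (S1.1 (sa l)) = 1; rw [ea, h1])
      refine ⟨fun y hy => ?_, ?_⟩
      · show F (S1.1 (R.1 ((S1⁻¹).1 y))) = F y
        have h2 : F (S1.1 (R.1 ((S1⁻¹).1 y))) = F (S1.1 ((S1⁻¹).1 y)) :=
          a.1 _ (hS1.2.2 y hy)
        rw [h2, act_inv_apply]
      · show F (S1.1 (R.1 ((S1⁻¹).1 (sb l)))) = _
        rw [act_inv_eq eb]
        have h2 : F (S1.1 (R.1 (sb l))) = (F (S1.1 (sa (l + 1))))⁻¹ * F (S1.1 (sb l)) := a.2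
        rw [h2, eb]

/-- Slides along all elements of the group of the handles behind. -/
theorem Slid.all {l r : ℕ} (hr : r ≤ g) {x : SG g n}
    (hx : x ∈ (Wi (l + 1) r : Subgroup (SG g n))) : ∃ S : PMod g n, Slid Q l r x S := by
  unfold Wi at hx
  induction hx using Subgroup.closure_induction with
  | mem x hx =>
    obtain ⟨k, k1, k2, hk⟩ := hx
    rcases hk with rfl | rfl
    · exact Slid.sim hr (Sim_left hr k1 (sa_mem_Sim k2))
    · obtain ⟨S, hS⟩ := Slid.sim (Q := Q) hr (Sim_left hr k1 (sb_inv_mem_Sim k2 (by omega)))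
      refine ⟨S⁻¹, ?_⟩
      have := hS.inv (Subgroup.inv_mem _ (sb_mem_Wi k1 k2))
      rwa [inv_inv] at this
  | one => exact ⟨1, Slid.one l r⟩
  | mul x y hx hy ix iy =>
    obtain ⟨S, hS⟩ := ix
    obtain ⟨T, hT⟩ := iy
    exact ⟨S * T, hS.mul hx hy hT⟩
  | inv x hx ix =>
    obtain ⟨S, hS⟩ := ix
    exact ⟨S⁻¹, hS.inv hx⟩

end Pool.Agent.PWI
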