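import Pool.Agent.PWM.Slide
import Pool.Agent.PWJ.Fin2

/-!
# PWM: from a curve with trivial value to a handle with trivial values
-/

namespace Pool.Agent.PWI

variable {g n : ℕ} {Q : Type*} [Group Q] [Finite Q]

/-- If every interval of `D` handles contains a nonseparating curve with trivial value, then every
interval of `D + j` handles, `|H| ≤ 2 ^ j`, contains a handle with trivial values. -/
theorem triv_handle {P : Subgroup (SG g n)} {ψ : SG g n → Q} (hψ : MulOn P ψ) (D : ℕ)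
    (hD : 1 ≤ D) (hc : ∀ (T : PMod g n) (l r : ℕ), r ≤ g → l + D ≤ r →
      (∀ x ∈ (Wi l r : Subgroup (SG g n)), T.1 x ∈ P) →
      ∃ S : PMod g n, SuppI S l r ∧ ψ (T.1 (S.1 (sa l))) = 1) (j : ℕ) :
    ∀ (l r : ℕ) (T : PMod g n) (H : Subgroup Q), r ≤ g → l + (D + j) ≤ r →
      (∀ x ∈ (Wi l r : Subgroup (SG g n)), T.1 x ∈ P ∧ ψ (T.1 x) ∈ H) → Nat.card H ≤ 2 ^ j →
      ∃ S : PMod g n, SuppI S l r ∧ ψ (T.1 (S.1 (sa l))) = 1 ∧ ψ (T.1 (S.1 (sb l))) = 1 := by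
  induction j with
  | zero =>
    intro l r T H hr hl hT hH
    obtain ⟨S0, hS0, e0⟩ := hc T l r hr (by omega) (fun x hx => (hT x hx).1)
    refine ⟨S0, hS0, e0, ?_⟩
    have h1 := (hT _ (hS0.2.1 _ (sb_mem_Wi le_rfl (by omega : l < r)))).2
    have h2 : H = ⊥ := by
      rw [pow_zero] at hH
      exact Subgroup.eq_bot_of_card_le H hH
    rw [h2] at h1
    exact Subgroup.mem_bot.1 h1
  | succ j ih =>
    intro l r T H hr hl hT hH
    obtain ⟨S0, hS0, e0⟩ := hc T l r hr (by omega) (fun x hx => (hT x hx).1)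
    obtain ⟨F, hFd⟩ : ∃ F : SG g n → Q, ∀ x, F x = ψ (T.1 (S0.1 x)) := ⟨_, fun _ => rfl⟩
    have hT1 : ∀ x ∈ (Wi l r : Subgroup (SG g n)), T.1 (S0.1 x) ∈ P ∧ F x ∈ H := by
      intro x hx
      rw [hFd]
      exact hT _ (hS0.2.1 x hx)
    have hF : MulOn (Wi l r) F := by
      intro x hx y hy
      rw [hFd, hFd, hFd, map_mul, map_mul, hψ _ (hT1 x hx).1 _ (hT1 y hy).1]
    have hFa : F (sa l) = 1 := by rw [hFd]; exact e0
    have hsub : ∀ {x : SG g n}, x ∈ (Wi (l + 1) r : Subgroup (SG g n)) →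
        x ∈ (Wi l r : Subgroup (SG g n)) := fun hx => Wi_mono (Nat.le_succ l) le_rfl hx
    let H1 : Subgroup Q :=
      { carrier := {q | ∃ x ∈ (Wi (l + 1) r : Subgroup (SG g n)), F x = q}
        one_mem' := ⟨1, Subgroup.one_mem _, hF.one⟩
        mul_mem' := by
          rintro _ _ ⟨x, hx, rfl⟩ ⟨y, hy, rfl⟩
          exact ⟨x * y, Subgroup.mul_mem _ hx hy, hF _ (hsub hx) _ (hsub hy)⟩
        inv_mem' := by
          rintro _ ⟨x, hx, rfl⟩
          exact ⟨x⁻¹, Subgroup.inv_mem _ hx, hF.inv (hsub hx)⟩ }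
    have hH1 : ∀ q, q ∈ H1 ↔ ∃ x ∈ (Wi (l + 1) r : Subgroup (SG g n)), F x = q :=
      fun _ => Iff.rfl
    by_cases hb : F (sb l) ∈ H1
    · obtain ⟨x, hx, e⟩ := (hH1 _).1 hb
      obtain ⟨S, hS⟩ := Slid.all (Q := Q) hr hx
      have a := hS.2.2 F hF hFa
      refine ⟨S0 * S, hS0.mul hS.1, ?_, ?_⟩
      · show ψ (T.1 (S0.1 (S.1 (sa l)))) = 1
        rw [hS.2.1]
        exact e0
      · show ψ (T.1 (S0.1 (S.1 (sb l)))) = 1
        rw [← hFd, a.2, e, inv_mul_cancel]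
    · have hle : H1 ≤ H := by
        rintro q hq
        obtain ⟨x, hx, rfl⟩ := (hH1 q).1 hq
        exact (hT1 x (hsub hx)).2
      have hbH : F (sb l) ∈ H := (hT1 _ (sb_mem_Wi le_rfl (by omega))).2
      have hcard : Nat.card H1 ≤ 2 ^ j := by
        obtain ⟨c, h1⟩ := Subgroup.card_dvd_of_le hle
        have h0 : 0 < Nat.card H := Nat.card_pos
        have h4 : 2 * Nat.card H1 ≤ Nat.card H := by
          rcases Nat.lt_or_ge c 2 with h | h
          · exfalso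
            rcases Nat.eq_zero_or_pos c with h5 | h5
            · rw [h5, mul_zero] at h1
              omega
            · have h6 : c = 1 := by omega
              rw [h6, mul_one] at h1
              have h7 : H1 = H := Subgroup.eq_of_le_of_card_ge hle h1.le
              exact hb (h7 ▸ hbH)
          · rw [h1, mul_comm 2]
            exact Nat.mul_le_mul_left _ h
        rw [pow_succ] at hH
        omega
      obtain ⟨S2, hS2, g1, g2⟩ := ih (l + 1) r (T * S0) H1 hr (by omega)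
        (fun x hx => ⟨(hT1 x (hsub hx)).1, (hH1 _).2 ⟨x, hx, hFd x⟩⟩) hcard
      obtain ⟨R, hR, f1, f2⟩ := exI (g := g) (n := n) l (by omega)
      refine ⟨S0 * (S2 * R⁻¹), hS0.mul ((hS2.mono (by omega) le_rfl).mul
        (hR.inv.mono le_rfl (by omega))), ?_, ?_⟩
      · show ψ (T.1 (S0.1 (S2.1 ((R⁻¹).1 (sa l))))) = 1
        rw [act_inv_eq f1]
        exact g1
      · show ψ (T.1 (S0.1 (S2.1 ((R⁻¹).1 (sb l))))) = 1
        rw [act_inv_eq f2]
        exact g2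

private theorem stepM {P : Subgroup (SG g n)} {ψ : SG g n → Q} (hψ : MulOn P ψ) (D k m l : ℕ)
    (hD : 1 ≤ D) (hc : ∀ (T : PMod g n) (l r : ℕ), r ≤ g → l + D ≤ r →
      (∀ x ∈ (Wi l r : Subgroup (SG g n)), T.1 x ∈ P) →
      ∃ S : PMod g n, SuppI S l r ∧ ψ (T.1 (S.1 (sa l))) = 1)
    (hm : m ≤ g) (hQ : Nat.card Q ≤ 2 ^ k) (hl : l + (D + k) ≤ m)
    (T : PMod g n) (hT : ∀ k < m, T.1 (sa k) ∈ P ∧ T.1 (sb k) ∈ P)
    (hN : ∀ k < l, ψ (T.1 (sa k)) = 1 ∧ ψ (T.1 (sb k)) = 1) :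
    ∃ T' : PMod g n, (∀ k < m, T'.1 (sa k) ∈ P ∧ T'.1 (sb k) ∈ P) ∧
      ∀ k < l + 1, ψ (T'.1 (sa k)) = 1 ∧ ψ (T'.1 (sb k)) = 1 := by
  have hTW : ∀ x ∈ (Wi 0 m : Subgroup (SG g n)), T.1 x ∈ P :=
    Wi_map_le T P (fun k _ h => hT k h)
  obtain ⟨S, hS, e1, e2⟩ := triv_handle hψ D hD hc k l m T ⊤ hm hl
    (fun x hx => ⟨hTW x (Wi_mono (Nat.zero_le l) le_rfl hx), Subgroup.mem_top _⟩)
    (by rw [Subgroup.card_top]; exact hQ)
  refine ⟨T * S, fun k hk => ?_, fun k hk => ?_⟩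
  · have hS' := hS.mono (Nat.zero_le l) (le_refl m)
    exact ⟨hTW _ (hS'.2.1 _ (sa_mem_Wi (Nat.zero_le k) hk)),
      hTW _ (hS'.2.1 _ (sb_mem_Wi (Nat.zero_le k) hk))⟩
  · rcases Nat.lt_or_ge k l with h | h
    · have ea := hS.fix (Or.inl le_rfl) (sa_mem_Wi (Nat.zero_le k) h)
      have eb := hS.fix (Or.inl le_rfl) (sb_mem_Wi (Nat.zero_le k) h)
      constructor
      · show ψ (T.1 (S.1 (sa k))) = 1
        rw [ea]
        exact (hN k h).1
      · show ψ (T.1 (S.1 (sb k))) = 1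
        rw [eb]
        exact (hN k h).2
    · have : k = l := by omega
      subst this
      exact ⟨e1, e2⟩

/-- A hom from `P` to a group of order `≤ 2 ^ k` is killed on all but `D + k - 1` handles. -/
theorem handles_homM {P : Subgroup (SG g n)} {ψ : SG g n → Q} (hψ : MulOn P ψ) (D k m : ℕ)
    (hD : 1 ≤ D) (hc : ∀ (T : PMod g n) (l r : ℕ), r ≤ g → l + D ≤ r →
      (∀ x ∈ (Wi l r : Subgroup (SG g n)), T.1 x ∈ P) →
      ∃ S : PMod g n, SuppI S l r ∧ ψ (T.1 (S.1 (sa l))) = 1)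
    (hm : m ≤ g) (hQ : Nat.card Q ≤ 2 ^ k) (h : ContainsHandles P m) :
    ∃ T : PMod g n, ∀ i < m - (D + k - 1), (T.1 (sa i) ∈ P ∧ T.1 (sb i) ∈ P) ∧
      ψ (T.1 (sa i)) = 1 ∧ ψ (T.1 (sb i)) = 1 := by
  obtain ⟨T0, hT0⟩ := h
  have claim : ∀ l, l + (D + k - 1) ≤ m → ∃ T : PMod g n,
      (∀ k < m, T.1 (sa k) ∈ P ∧ T.1 (sb k) ∈ P) ∧
        ∀ k < l, ψ (T.1 (sa k)) = 1 ∧ ψ (T.1 (sb k)) = 1 := by
    intro l
    induction l with
    | zero => exact fun _ => ⟨T0, hT0, fun k hk => absurd hk (Nat.not_lt_zero k)⟩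
    | succ l ih =>
      intro hl
      obtain ⟨T, h1, h2⟩ := ih (by omega)
      exact stepM hψ D k m l hD hc hm hQ (by omega) T h1 h2
  rcases Nat.lt_or_ge m (D + k - 1) with h | h
  · refine ⟨1, fun k hk => absurd hk (by omega)⟩
  · obtain ⟨T, h1, h2⟩ := claim (m - (D + k - 1)) (by omega)
    exact ⟨T, fun i hi => ⟨h1 i (by omega), h2 i hi⟩⟩

end Pool.Agent.PWI
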