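import Pool.Agent.PWK.Val

/-!
# PWM: ordered subset products of the curves `a_q, ..., a_(q+j-1)`   (helper52)
-/

namespace Pool.Agent.PWI

variable {g n : ℕ}

/-- The ordered product of those `x (q + i)`, `i < j`, with `e i`. -/
def cube {G : Type*} [Monoid G] (x : ℕ → G) (q j : ℕ) (e : Fin j → Bool) : G :=
  (List.ofFn fun i : Fin j => if e i then x (q + i.val) else 1).prod

theorem cube_cons {G : Type*} [Monoid G] (x : ℕ → G) (q j : ℕ) (b : Bool) (e : Fin j → Bool) :
    cube x q (j + 1) (Fin.cons b e : Fin (j + 1) → Bool) =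
      (if b then x q else 1) * cube x (q + 1) j e := by
  unfold cube
  rw [List.ofFn_succ, List.prod_cons]
  simp only [Fin.cons_zero, Fin.val_zero, add_zero, Fin.cons_succ, Fin.val_succ]
  congr 2
  congr 1
  funext i
  rw [show q + (i.val + 1) = q + 1 + i.val by omega]

theorem cube_snoc {G : Type*} [Monoid G] (x : ℕ → G) (q j : ℕ) (b : Bool) (e : Fin j → Bool) :
    cube x q (j + 1) (Fin.snoc e b : Fin (j + 1) → Bool) =
      cube x q j e * (if b then x (q + j) else 1) := by
  unfold cube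
  rw [List.ofFn_succ', List.concat_eq_append, List.prod_append]
  simp only [Fin.snoc_castSucc, Fin.snoc_last, Fin.val_castSucc, Fin.val_last, List.prod_cons,
    List.prod_nil, mul_one]

theorem cube_congr {G : Type*} [Monoid G] {x y : ℕ → G} {q q' j : ℕ}
    (h : ∀ i < j, x (q + i) = y (q' + i)) (e : Fin j → Bool) : cube x q j e = cube y q' j e := by
  unfold cube
  congr 2
  funext i
  rw [h i.val i.2]

theorem cube_false {G : Type*} [Monoid G] (x : ℕ → G) (q j : ℕ) {e : Fin j → Bool}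
    (he : ∀ i, e i = false) : cube x q j e = 1 := by
  unfold cube
  rw [List.prod_eq_one]
  intro y hy
  obtain ⟨i, rfl⟩ := (List.mem_ofFn' _ _).1 hy
  simp [he i]

theorem cube_mem {q r j : ℕ} (hj : q + j ≤ r) (e : Fin j → Bool) :
    cube (sa : ℕ → SG g n) q j e ∈ (Wi q r : Subgroup (SG g n)) := by
  unfold cube
  apply Subgroup.list_prod_mem
  intro y hy
  obtain ⟨i, rfl⟩ := (List.mem_ofFn' _ _).1 hy
  have := i.2
  dsimp only
  split_ifs
  · exact sa_mem_Wi (by omega) (by omega)
  · exact (Wi q r).one_mem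

theorem cube_map {Q : Type*} [Group Q] [Finite Q] {h : SG g n → Q} {l r : ℕ}
    (hh : MulOn (Wi l r : Subgroup (SG g n)) h) {q j : ℕ} (hq : l ≤ q) (hj : q + j ≤ r)
    (e : Fin j → Bool) : h (cube sa q j e) = cube (fun i => h (sa i)) q j e := by
  induction j generalizing q with
  | zero => simp [cube, hh.one]
  | succ j ih =>
    obtain ⟨b, e', rfl⟩ : ∃ (b : Bool) (e' : Fin j → Bool), e = Fin.cons b e' :=
      ⟨e 0, Fin.tail e, (Fin.cons_self_tail e).symm⟩
    rw [cube_cons, cube_cons, hh _ ?_ _ (Wi_mono (by omega) le_rfl (cube_mem (r := r) (by omega) e')),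
      ih (by omega) (by omega)]
    · cases b
      · simp [hh.one]
      · simp
    · cases b
      · simp only [Bool.false_eq_true, if_false]; exact (Wi l r).one_mem
      · simp only [if_true]; exact sa_mem_Wi hq (by omega)

/-- Images of `a_q` under mapping classes supported on `q, ..., r - 1`. -/
def Sp (q r : ℕ) : Set (SG g n) :=
  {x | q < r ∧ ∃ S : PMod g n, SuppI S q r ∧ x = S.1 (sa q)}

theorem Sp_left {q r : ℕ} (hr : r ≤ g) {x : SG g n}
    (hx : x ∈ (Sp (q + 1) r : Set (SG g n))) : x ∈ (Sp q r : Set (SG g n)) := by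
  obtain ⟨h, S, hS, rfl⟩ := hx
  obtain ⟨R, hR, f1, -⟩ := exI (g := g) (n := n) q (by omega)
  refine ⟨by omega, S * R⁻¹, (hS.mono (by omega) le_rfl).mul
    (hR.inv.mono le_rfl (by omega)), ?_⟩
  show S.1 (sa (q + 1)) = S.1 ((R⁻¹).1 (sa q))
  rw [act_inv_eq f1]

theorem Sp_left' {q q' r : ℕ} (hr : r ≤ g) (hq : q ≤ q') {x : SG g n}
    (hx : x ∈ (Sp q' r : Set (SG g n))) : x ∈ (Sp q r : Set (SG g n)) := by
  obtain ⟨d, rfl⟩ : ∃ d, q' = q + d := ⟨q' - q, by omega⟩
  clear hq
  induction d with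
  | zero => exact hx
  | succ d ih => exact ih (Sp_left hr hx)

theorem Sp_right {q r r' : ℕ} (hr : r ≤ r') {x : SG g n}
    (hx : x ∈ (Sp q r : Set (SG g n))) : x ∈ (Sp q r' : Set (SG g n)) := by
  obtain ⟨h, S, hS, rfl⟩ := hx
  exact ⟨by omega, S, hS.mono le_rfl hr, rfl⟩

theorem Sp_mul {q r : ℕ} (hr : r ≤ g) {v : SG g n}
    (hv : v ∈ (Sp (q + 1) r : Set (SG g n))) : sa q * v ∈ (Sp q r : Set (SG g n)) := by
  obtain ⟨h, S1, hS1, rfl⟩ := hv
  obtain ⟨R, hR, f1⟩ := exV (g := g) (n := n) q (by omega)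
  refine ⟨by omega, S1 * R, (hS1.mono (by omega) le_rfl).mul (hR.mono le_rfl (by omega)), ?_⟩
  show _ = S1.1 (R.1 (sa q))
  rw [f1, map_mul, hS1.fix (Or.inl le_rfl) (sa_mem_Wi le_rfl (Nat.lt_succ_self q))]

/-- Nonempty subset products are simple. -/
theorem cube_Sp {q j : ℕ} (hj : q + j ≤ g) (e : Fin j → Bool) (he : ∃ i, e i = true) :
    cube (sa : ℕ → SG g n) q j e ∈ (Sp q (q + j) : Set (SG g n)) := by
  induction j generalizing q with
  | zero => obtain ⟨i, -⟩ := he; exact i.elim0
  | succ j ih =>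
    obtain ⟨b, e', rfl⟩ : ∃ (b : Bool) (e' : Fin j → Bool), e = Fin.cons b e' :=
      ⟨e 0, Fin.tail e, (Fin.cons_self_tail e).symm⟩
    rw [cube_cons]
    by_cases h : ∃ i, e' i = true
    · have h1 := ih (q := q + 1) (by omega) e' h
      rw [show q + 1 + j = q + (j + 1) by omega] at h1
      cases b
      · simp only [Bool.false_eq_true, if_false, one_mul]
        exact Sp_left hj h1
      · simp only [if_true]
        exact Sp_mul hj h1
    · have h0 : ∀ i, e' i = false := fun i => by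
        by_contra hc
        exact h ⟨i, by simpa using hc⟩
      rw [cube_false _ _ _ h0, mul_one]
      obtain ⟨i, hi⟩ := he
      have hb : b = true := by
        rcases Fin.eq_zero_or_eq_succ i with rfl | ⟨i', rfl⟩
        · simpa using hi
        · rw [Fin.cons_succ, h0 i'] at hi
          exact absurd hi (by simp)
      subst hb
      simp only [if_true]
      exact ⟨by omega, 1, SuppI.one _ _, rfl⟩

/-- The shift of a block of handles by one place. -/
theorem shiftA (q j : ℕ) (h : q + j + 1 ≤ g) : ∃ S : PMod g n, SuppI S q (q + j + 1) ∧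
    ∀ i < j, S.1 (sa (q + 1 + i)) = sa (q + i) := by
  induction j with
  | zero => exact ⟨1, SuppI.one _ _, fun i hi => absurd hi (Nat.not_lt_zero i)⟩
  | succ j ih =>
    obtain ⟨S, hS, e⟩ := ih (by omega)
    obtain ⟨R, hR, f1, -⟩ := exI (g := g) (n := n) (q + j) (by omega)
    refine ⟨R * S, (hR.mono (by omega) (by omega)).mul (hS.mono le_rfl (by omega)), ?_⟩
    intro i hi
    show R.1 (S.1 (sa (q + 1 + i))) = sa (q + i)
    rcases Nat.lt_succ_iff_lt_or_eq.1 hi with h1 | h1
    · rw [e i h1, hR.fix (Or.inl le_rfl) (sa_mem_Wi le_rfl (show q + i < q + j by omega))]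
    · subst h1
      rw [hS.fix (Or.inr le_rfl) (sa_mem_Wi (q := q + i + 1) (show q + i + 1 ≤ q + 1 + i by omega)
        (Nat.lt_succ_self _)), show q + 1 + i = q + i + 1 by omega, f1]

end Pool.Agent.PWI
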